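import Pool.Agent.H10.PG.Cyc

set_option autoImplicit false

namespace Pool.Agent.H10.PG

open Finset

variable {V : Type*} [DecidableEq V]

lemma head_edge {a b : V} {t : List V} (h : (a :: b :: t).Nodup) {e : Sym2 V}
    (he : e ∈ pe (a :: b :: t)) (ha : a ∈ e) : e = s(a, b) := by
  rw [pe_cons_cons, mem_insert] at he
  rcases he with he | he
  · exact he
  · exact absurd (mem_of_mem_pe he ha) (List.nodup_cons.1 h).1

lemma pe_inj_head {l m : List V} (hl : l.Nodup) (hm : m.Nodup) (hl0 : l ≠ []) (hm0 : m ≠ [])
    (hh : l.head hl0 = m.head hm0) (he : pe l = pe m) : l = m := by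
  induction l generalizing m with
  | nil => exact absurd rfl hl0
  | cons a t ih =>
    cases m with
    | nil => exact absurd rfl hm0
    | cons a' t' =>
      simp only [List.head_cons] at hh
      subst hh
      cases t with
      | nil =>
        cases t' with
        | nil => rfl
        | cons b' t' =>
          rw [pe_single, pe_cons_cons] at he
          have : s(a, b') ∈ (∅ : Finset (Sym2 V)) := by rw [he]; exact mem_insert_self _ _
          simp at this
      | cons b t =>
        cases t' with
        | nil =>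
          rw [pe_single, pe_cons_cons] at he
          have : s(a, b) ∈ (∅ : Finset (Sym2 V)) := by rw [← he]; exact mem_insert_self _ _
          simp at this
        | cons b' t' =>
          have h1 : s(a, b) ∈ pe (a :: b' :: t') := by
            rw [← he, pe_cons_cons]; exact mem_insert_self _ _
          have h2 := head_edge hm h1 (Sym2.mem_mk_left _ _)
          have h3 : b = b' := by
            rw [Sym2.eq_iff] at h2
            rcases h2 with h2 | h2
            · exact h2.2
            · rw [← h2.1, h2.2]
          subst h3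
          have h4 : pe (b :: t) = pe (b :: t') := by
            rw [← erase_insert (notMem_pe_cons hl), ← erase_insert (notMem_pe_cons hm),
              ← pe_cons_cons, ← pe_cons_cons, he]
          rw [ih (List.nodup_cons.1 hl).2 (List.nodup_cons.1 hm).2 (by simp) (by simp) rfl h4]

lemma pe_inj {l m : List V} (hl : l.Nodup) (hm : m.Nodup) (h2 : 2 ≤ l.length)
    (he : pe l = pe m) : m = l ∨ m = l.reverse := by
  have hl0 : l ≠ [] := by rintro rfl; simp at h2
  have f1 := dg_pe hl hl0 (l.head hl0)
  rw [if_pos rfl, if_neg (head_ne_last hl hl0 h2), if_pos (List.head_mem hl0)] at f1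
  have hd : dg (pe m) (l.head hl0) = 1 := by rw [← he]; omega
  have hm1 : l.head hl0 ∈ m := by
    by_contra hcon
    rw [dg_zero_of_notMem hcon] at hd
    omega
  have hm0 : m ≠ [] := List.ne_nil_of_mem hm1
  have f2 := dg_pe hm hm0 (l.head hl0)
  rw [hd, if_pos hm1] at f2
  by_cases c1 : l.head hl0 = m.head hm0
  · left; exact (pe_inj_head hl hm hl0 hm0 c1 he).symm
  · rw [if_neg c1] at f2
    have c2 : l.head hl0 = m.getLast hm0 := by
      by_contra hcon
      rw [if_neg hcon] at f2
      omega
    right
    have := pe_inj_head hl (List.nodup_reverse.2 hm) hl0 (by simpa using hm0)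
      (by rw [c2, List.head_reverse]) (by rw [he, pe_reverse])
    rw [this, List.reverse_reverse]

lemma inter_insert_insert {α : Type*} [DecidableEq α] {K : Finset α} {x y : α} (hx : x ∉ K)
    (hxy : x ≠ y) : insert x K ∩ insert y K = K := by
  ext z
  simp only [mem_inter, mem_insert]
  constructor
  · rintro ⟨h1 | h1, h2 | h2⟩
    · exact absurd (h1.symm.trans h2) hxy
    · exact h2
    · exact h1
    · exact h1
  · intro h
    exact ⟨Or.inr h, Or.inr h⟩

variable [Fintype V]

/-- adjacency of edge sets -/
def Ad (S T : Finset (Sym2 V)) : Prop := (S ∩ T).card + 2 = Fintype.card V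

lemma Ad.symm {S T : Finset (Sym2 V)} (h : Ad S T) : Ad T S := by
  unfold Ad at *; rw [inter_comm]; exact h

lemma Ad.ne {S T : Finset (Sym2 V)} (hS : HP S) (h3 : 2 ≤ Fintype.card V) (h : Ad S T) :
    S ≠ T := by
  rintro rfl
  unfold Ad at h
  rw [inter_self, hS.card] at h
  omega

lemma ad_insert {K : Finset (Sym2 V)} {x y : Sym2 V} (hx : x ∉ K)
    (hxy : x ≠ y) (hK : K.card + 2 = Fintype.card V) : Ad (insert x K) (insert y K) := by
  unfold Ad
  rw [inter_insert_insert hx hxy]
  exact hK

section joins

variable {A B : List V} (hA : A ≠ []) (hB : B ≠ []) (hf : Full (A ++ B))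
include hA hB hf

lemma cardK : (pe A ∪ pe B).card + 2 = Fintype.card V := by
  rw [card_union_pe hA hB hf.nodup, hf.length]

lemma lenAB : A.length + B.length = Fintype.card V := by
  rw [← List.length_append, hf.length]

lemma j12 (h3 : 3 ≤ Fintype.card V) :
    s(A.getLast hA, B.head hB) ≠ s(A.head hA, B.getLast hB) := by
  intro h
  obtain ⟨e1, e2⟩ := cross_eq hf.nodup (List.getLast_mem hA) (List.head_mem hB)
    (List.head_mem hA) (List.getLast_mem hB) h
  have hlen := lenAB hA hB hf
  have l1 : A.length < 2 := by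
    by_contra hcon
    exact head_ne_last (List.nodup_append.1 hf.nodup).1 hA (by omega) e1.symm
  have l2 : B.length < 2 := by
    by_contra hcon
    exact head_ne_last (List.nodup_append.1 hf.nodup).2.1 hB (by omega) e2
  omega

lemma j13 (h2 : 2 ≤ A.length) :
    s(A.getLast hA, B.head hB) ≠ s(A.head hA, B.head hB) := by
  intro h
  obtain ⟨e1, e2⟩ := cross_eq hf.nodup (List.getLast_mem hA) (List.head_mem hB)
    (List.head_mem hA) (List.head_mem hB) h
  exact head_ne_last (List.nodup_append.1 hf.nodup).1 hA h2 e1.symm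

lemma j23 (h2 : 2 ≤ B.length) :
    s(A.head hA, B.getLast hB) ≠ s(A.head hA, B.head hB) := by
  intro h
  obtain ⟨e1, e2⟩ := cross_eq hf.nodup (List.head_mem hA) (List.getLast_mem hB)
    (List.head_mem hA) (List.head_mem hB) h
  exact head_ne_last (List.nodup_append.1 hf.nodup).2.1 hB h2 e2.symm

lemma ad_rot (h3 : 3 ≤ Fintype.card V) : Ad (pe (A ++ B)) (pe (B ++ A)) := by
  rw [join1 hA hB, join2 hA hB]
  exact ad_insert (cross_notMem hf.nodup (List.getLast_mem hA) (List.head_mem hB))
    (j12 hA hB hf h3) (cardK hA hB hf)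

lemma inter_rot (h3 : 3 ≤ Fintype.card V) : pe (A ++ B) ∩ pe (B ++ A) = pe A ∪ pe B := by
  rw [join1 hA hB, join2 hA hB]
  exact inter_insert_insert (cross_notMem hf.nodup (List.getLast_mem hA) (List.head_mem hB))
    (j12 hA hB hf h3)

lemma ad_rev (h2 : 2 ≤ A.length) : Ad (pe (A ++ B)) (pe (A.reverse ++ B)) := by
  rw [join1 hA hB, join3 hA hB]
  exact ad_insert (cross_notMem hf.nodup (List.getLast_mem hA) (List.head_mem hB))
    (j13 hA hB hf h2) (cardK hA hB hf)

lemma ad_rev' (h2 : 2 ≤ B.length) : Ad (pe (B ++ A)) (pe (A.reverse ++ B)) := by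
  rw [join2 hA hB, join3 hA hB]
  exact ad_insert (cross_notMem hf.nodup (List.head_mem hA) (List.getLast_mem hB))
    (j23 hA hB hf h2) (cardK hA hB hf)

end joins

/-- Classification of the neighbours. -/
lemma nbr {l : List V} (hf : Full l) {S : Finset (Sym2 V)} (hS : HP S)
    (h3 : 3 ≤ Fintype.card V) (had : Ad (pe l) S) :
    ∃ A B, A ≠ [] ∧ B ≠ [] ∧ l = A ++ B ∧
      (S = pe (B ++ A) ∨ S = pe (A.reverse ++ B) ∨ S = pe (A ++ B.reverse)) := by
  have hc := hf.hp.card
  have h1 : (pe l ∩ S).card + 1 = (pe l).card := by unfold Ad at had; omega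
  obtain ⟨e, he, hle⟩ := (Finset.exists_eq_insert_iff (s := pe l ∩ S) (t := pe l)).2
    ⟨inter_subset_left, h1⟩
  have hel : e ∈ pe l := by rw [← hle]; exact mem_insert_self _ _
  obtain ⟨A, B, hA, hB, h4, h5⟩ := split_of_mem hf.nodup hel
  subst h4
  have h6 : pe A ∪ pe B = pe (A ++ B) ∩ S := by
    rw [← erase_insert he, hle, join1 hA hB, h5,
      erase_insert (cross_notMem hf.nodup (List.getLast_mem hA) (List.head_mem hB))]
  have h7 : pe A ∪ pe B ⊆ S := by rw [h6]; exact inter_subset_right
  refine ⟨A, B, hA, hB, rfl, ?_⟩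
  rcases four_joins hA hB hf hS h7 with h | h
  · exact absurd h.symm (had.ne hf.hp (by omega))
  · exact h

lemma SC_iff {l : List V} (hf : Full l) (h3 : 3 ≤ Fintype.card V) {S : Finset (Sym2 V)} :
    SC (pe l) S ↔ ∃ A B, l = A ++ B ∧ S = pe (B ++ A) := by
  constructor
  · rintro ⟨A, B, hAB, h1, h2⟩
    rcases pe_inj hf.nodup hAB.nodup (by rw [hf.length]; omega) h1 with h | h
    · exact ⟨A, B, h.symm, h2⟩
    · refine ⟨B.reverse, A.reverse, ?_, ?_⟩
      · rw [← List.reverse_append, h, List.reverse_reverse]
      · rw [h2, ← List.reverse_append, pe_reverse]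
  · rintro ⟨A, B, rfl, rfl⟩
    exact ⟨A, B, hf, rfl, rfl⟩

lemma SC_sub {l : List V} (hf : Full l) (h3 : 3 ≤ Fintype.card V) {S : Finset (Sym2 V)}
    (h : SC (pe l) S) : S ⊆ ce l := by
  obtain ⟨A, B, rfl, rfl⟩ := (SC_iff hf h3).1 h
  exact pe_sub_ce'

lemma SC_of_sub {l : List V} (hf : Full l) (h3 : 3 ≤ Fintype.card V) {S : Finset (Sym2 V)}
    (hS : HP S) (h : S ⊆ ce l) : SC (pe l) S := by
  rw [SC_iff hf h3]
  exact sub_ce hf h3 hS h

lemma not_SC_rev {A B : List V} (hA : A ≠ []) (hB : B ≠ []) (hf : Full (A ++ B))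
    (hA2 : 2 ≤ A.length) (hB2 : 2 ≤ B.length) : ¬ SC (pe (A ++ B)) (pe (A.reverse ++ B)) := by
  intro h
  have hlen := lenAB hA hB hf
  have h1 := SC_sub hf (by omega) h
  have h2 : s(A.head hA, B.head hB) ∈ ce (A ++ B) := by
    apply h1
    rw [join3 hA hB]
    exact mem_insert_self _ _
  rw [ce_append hA hB, mem_insert, mem_insert] at h2
  rcases h2 with h2 | h2 | h2
  · exact j23 hA hB hf hB2 h2.symm
  · exact j13 hA hB hf hA2 h2.symm
  · exact cross_notMem hf.nodup (List.head_mem hA) (List.head_mem hB) h2

/-- Common neighbours of two paths of a Hamiltonian cycle. -/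
lemma common_rot {A B : List V} (hA : A ≠ []) (hB : B ≠ []) (hf : Full (A ++ B))
    (h3 : 3 ≤ Fintype.card V) {R : Finset (Sym2 V)} (hR : HP R)
    (h1 : Ad (pe (A ++ B)) R) (h2 : Ad (pe (B ++ A)) R) :
    SC (pe (A ++ B)) R ∨ R = pe (A.reverse ++ B) ∨ R = pe (A ++ B.reverse) := by
  have c1 := hf.hp.card
  have c2 := hf.swap.hp.card
  have c3 := hR.card
  have a1 := ad_rot hA hB hf h3
  unfold Ad at a1
  have hj := johnson (m := Fintype.card V - 2) (P := pe (A ++ B)) (Q := pe (B ++ A)) (R := R)
    (by omega) (by omega) (by omega) (by omega) (by unfold Ad at h1; omega)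
    (by unfold Ad at h2; omega)
  rcases hj with hj | hj
  · rw [inter_rot hA hB hf h3] at hj
    rcases four_joins hA hB hf hR hj with h | h | h | h
    · exact absurd h.symm (h1.ne hf.hp (by omega))
    · exact absurd h.symm (h2.ne hf.swap.hp (by omega))
    · right; left; exact h
    · right; right; exact h
  · left
    apply SC_of_sub hf h3 hR
    exact hj.trans (union_subset (pe_sub_ce _) pe_sub_ce')

/-- Common neighbours of two adjacent paths of different Hamiltonian cycles. -/
lemma common_rev {A B : List V} (hA : A ≠ []) (hB : B ≠ []) (hf : Full (A ++ B))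
    (hA2 : 2 ≤ A.length) (hB2 : 2 ≤ B.length) {R : Finset (Sym2 V)} (hR : HP R)
    (h1 : Ad (pe (A ++ B)) R) (h2 : Ad (pe (A.reverse ++ B)) R) :
    R = pe (B ++ A) ∨ R = pe (A ++ B.reverse) := by
  have hlen := lenAB hA hB hf
  have c1 := hf.hp.card
  have c2 := hf.revL.hp.card
  have c3 := hR.card
  have a1 := ad_rev hA hB hf hA2
  have hinter : pe (A ++ B) ∩ pe (A.reverse ++ B) = pe A ∪ pe B := by
    rw [join1 hA hB, join3 hA hB]
    exact inter_insert_insert (cross_notMem hf.nodup (List.getLast_mem hA) (List.head_mem hB))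
      (j13 hA hB hf hA2)
  have a1' := a1
  unfold Ad at a1
  have hj := johnson (m := Fintype.card V - 2) (P := pe (A ++ B)) (Q := pe (A.reverse ++ B))
    (R := R)
    (by omega) (by omega) (by omega) (by omega) (by unfold Ad at h1; omega)
    (by unfold Ad at h2; omega)
  rcases hj with hj | hj
  · rw [hinter] at hj
    rcases four_joins hA hB hf hR hj with h | h | h | h
    · exact absurd h.symm (h1.ne hf.hp (by omega))
    · left; exact h
    · exact absurd h.symm (h2.ne hf.revL.hp (by omega))
    · right; exact h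
  · exfalso
    -- the union has a vertex of degree three
    have hnA := (List.nodup_append.1 hf.nodup).1
    have hnB := (List.nodup_append.1 hf.nodup).2.1
    have hu := card_union_add_card_inter (pe (A ++ B)) (pe (A.reverse ++ B))
    obtain ⟨x, hx, hRx⟩ := (Finset.exists_eq_insert_iff (s := R)
      (t := pe (A ++ B) ∪ pe (A.reverse ++ B))).2 ⟨hj, by omega⟩
    have hunion : pe (A ++ B) ∪ pe (A.reverse ++ B) =
        insert s(A.getLast hA, B.head hB) (insert s(A.head hA, B.head hB) (pe A ∪ pe B)) := by
      rw [join1 hA hB, join3 hA hB]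
      ext z
      simp only [mem_union, mem_insert]
      tauto
    have hRe : R = (pe (A ++ B) ∪ pe (A.reverse ++ B)).erase x := by
      rw [← hRx, erase_insert hx]
    have hn1 : s(A.head hA, B.head hB) ∉ pe A ∪ pe B :=
      cross_notMem hf.nodup (List.head_mem hA) (List.head_mem hB)
    have hn2 : s(A.getLast hA, B.head hB) ∉ insert s(A.head hA, B.head hB) (pe A ∪ pe B) := by
      rw [mem_insert, not_or]
      exact ⟨j13 hA hB hf hA2, cross_notMem hf.nodup (List.getLast_mem hA) (List.head_mem hB)⟩
    have hx1 : x ≠ s(A.getLast hA, B.head hB) := by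
      intro hx1
      apply h2.ne hf.revL.hp (by omega)
      rw [hRe, hunion, hx1, erase_insert hn2, join3 hA hB]
    have hx2 : x ≠ s(A.head hA, B.head hB) := by
      intro hx2
      apply h1.ne hf.hp (by omega)
      rw [hRe, hunion, hx2, Finset.insert_comm, erase_insert, join1 hA hB]
      rw [mem_insert, not_or]
      exact ⟨(j13 hA hB hf hA2).symm, hn1⟩
    have hxm : x ∈ pe (A ++ B) ∪ pe (A.reverse ++ B) := by
      rw [← hRx]; exact mem_insert_self _ _
    have hxK : x ∈ pe A ∪ pe B := by
      rw [hunion, mem_insert, mem_insert] at hxm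
      tauto
    -- degree at head B
    have d1 : dg (pe (A ++ B) ∪ pe (A.reverse ++ B)) (B.head hB) = 3 := by
      rw [hunion, dg_insert hn2, dg_insert hn1, dg_union (disjoint_pe hf.nodup)]
      rw [if_pos (Sym2.mem_mk_right _ _), if_pos (Sym2.mem_mk_right _ _)]
      rw [dg_zero_of_notMem (A := A) (fun h => disj_of_append hf.nodup h (List.head_mem hB))]
      have := dg_pe hnB hB (B.head hB)
      rw [if_pos rfl, if_neg (head_ne_last hnB hB hB2), if_pos (List.head_mem hB)] at this
      omega
    have d2 : B.head hB ∈ x := by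
      by_contra hcon
      rw [← hRx, dg_insert hx, if_neg hcon] at d1
      have := hR.dg_le (B.head hB)
      omega
    have hxB : x ∈ pe B := by
      rcases mem_union.1 hxK with h | h
      · exact absurd (mem_of_mem_pe h d2)
          (fun h => disj_of_append hf.nodup h (List.head_mem hB))
      · exact h
    match B, hB, hB2, hnB with
    | [b], _, hB2, _ => simp at hB2
    | b0 :: b1 :: B', hB, _, hnB =>
      simp only [List.head_cons] at *
      have hxe : x = s(b0, b1) := head_edge hnB hxB d2
      have hb1 : b1 ∉ A := fun h => disj_of_append hf.nodup h (by simp)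
      have hb01 : b1 ≠ b0 := by
        rintro rfl
        simp at hnB
      have hcon := hR.conn (fun v => v ∈ A ∨ v = b0) (by
        intro u v huv hu
        rw [hRe, mem_erase, hunion, mem_insert, mem_insert, mem_union] at huv
        obtain ⟨huv1, huv2⟩ := huv
        rcases huv2 with h | h | h | h
        · rw [Sym2.eq_iff] at h
          rcases h with h | h
          · right; exact h.2
          · left; rw [h.2]; exact List.getLast_mem hA
        · rw [Sym2.eq_iff] at h
          rcases h with h | h
          · right; exact h.2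
          · left; rw [h.2]; exact List.head_mem hA
        · left; exact mem_of_mem_pe h (Sym2.mem_mk_right _ _)
        · exfalso
          have huB : u ∈ b0 :: b1 :: B' := mem_of_mem_pe h (Sym2.mem_mk_left _ _)
          rcases hu with hu | hu
          · exact disj_of_append hf.nodup hu huB
          · subst hu
            exact huv1 (by rw [hxe]; exact head_edge hnB h (Sym2.mem_mk_left _ _))) (Or.inr rfl) b1
      rcases hcon with h | h
      · exact hb1 h
      · exact hb01 h

end Pool.Agent.H10.PG
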