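import Mathlib

set_option autoImplicit false

namespace Pool.Agent.H10.PG

open Finset

variable {V : Type*} [DecidableEq V]

/-- The set of edges joining consecutive entries of a list. -/
def pe : List V → Finset (Sym2 V)
  | [] => ∅
  | [_] => ∅
  | a :: b :: t => insert s(a, b) (pe (b :: t))

@[simp] lemma pe_nil : pe ([] : List V) = ∅ := rfl
@[simp] lemma pe_single (a : V) : pe [a] = ∅ := rfl
@[simp] lemma pe_cons_cons (a b : V) (t : List V) :
    pe (a :: b :: t) = insert s(a, b) (pe (b :: t)) := rfl

lemma mem_of_mem_pe {l : List V} {e : Sym2 V} (he : e ∈ pe l) {v : V} (hv : v ∈ e) : v ∈ l := by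
  induction l with
  | nil => simp at he
  | cons a t ih =>
    cases t with
    | nil => simp at he
    | cons b t =>
      rw [pe_cons_cons, mem_insert] at he
      rcases he with he | he
      · subst he
        rw [Sym2.mem_iff] at hv
        rcases hv with rfl | rfl <;> simp
      · exact List.mem_cons_of_mem _ (ih he)

lemma not_isDiag_of_mem_pe {l : List V} (hl : l.Nodup) {e : Sym2 V} (he : e ∈ pe l) :
    ¬ e.IsDiag := by
  induction l with
  | nil => simp at he
  | cons a t ih =>
    cases t with
    | nil => simp at he
    | cons b t =>
      rw [pe_cons_cons, mem_insert] at he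
      rcases he with he | he
      · subst he
        simp only [Sym2.mk_isDiag_iff]
        rintro rfl
        simp at hl
      · exact ih (List.nodup_cons.1 hl).2 he

lemma pe_cons {a : V} {t : List V} (ht : t ≠ []) :
    pe (a :: t) = insert s(a, t.head ht) (pe t) := by
  cases t with
  | nil => exact absurd rfl ht
  | cons b t => rfl

lemma pe_append {A B : List V} (hA : A ≠ []) (hB : B ≠ []) :
    pe (A ++ B) = insert s(A.getLast hA, B.head hB) (pe A ∪ pe B) := by
  induction A with
  | nil => exact absurd rfl hA
  | cons a A ih =>
    cases A with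
    | nil =>
      simp [pe_cons hB]
    | cons b A =>
      have := ih (by simp)
      simp only [List.cons_append, pe_cons_cons] at this ⊢
      rw [this]
      ext e
      simp only [mem_insert, mem_union, ne_eq, reduceCtorEq, not_false_eq_true, List.getLast_cons]
      tauto

lemma pe_reverse (l : List V) : pe l.reverse = pe l := by
  induction l with
  | nil => rfl
  | cons a t ih =>
    by_cases ht : t = []
    · subst ht; rfl
    · rw [List.reverse_cons, pe_append (by simpa using ht) (by simp), ih, pe_cons ht]
      simp [Sym2.eq_swap]

/-- number of edges of `S` at `v` -/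
def dg (S : Finset (Sym2 V)) (v : V) : ℕ := (S.filter (fun e => v ∈ e)).card

lemma dg_insert {S : Finset (Sym2 V)} {e : Sym2 V} (he : e ∉ S) (v : V) :
    dg (insert e S) v = dg S v + if v ∈ e then 1 else 0 := by
  unfold dg
  rw [filter_insert]
  split_ifs with h
  · rw [card_insert_of_notMem]
    simp [he]
  · rfl

lemma dg_union {S T : Finset (Sym2 V)} (h : Disjoint S T) (v : V) :
    dg (S ∪ T) v = dg S v + dg T v := by
  unfold dg
  rw [filter_union, card_union_of_disjoint]
  exact disjoint_filter_filter h

lemma dg_mono {S T : Finset (Sym2 V)} (h : S ⊆ T) (v : V) : dg S v ≤ dg T v :=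
  card_le_card (filter_subset_filter _ h)

lemma notMem_pe_cons {a b : V} {t : List V} (h : (a :: b :: t).Nodup) :
    s(a, b) ∉ pe (b :: t) := by
  intro h1
  have := mem_of_mem_pe h1 (Sym2.mem_mk_left a b)
  exact (List.nodup_cons.1 h).1 this

lemma card_pe {l : List V} (h : l.Nodup) : (pe l).card = l.length - 1 := by
  induction l with
  | nil => rfl
  | cons a t ih =>
    cases t with
    | nil => rfl
    | cons b t =>
      rw [pe_cons_cons, card_insert_of_notMem (notMem_pe_cons h), ih (List.nodup_cons.1 h).2]
      simp

/-- The degree formula. -/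
lemma dg_pe {l : List V} (h : l.Nodup) (hl : l ≠ []) (v : V) :
    dg (pe l) v + (if v = l.head hl then 1 else 0) + (if v = l.getLast hl then 1 else 0)
      = if v ∈ l then 2 else 0 := by
  induction l with
  | nil => exact absurd rfl hl
  | cons a t ih =>
    cases t with
    | nil =>
      simp only [pe_single, List.head_cons, List.getLast_singleton, List.mem_singleton]
      have : dg (∅ : Finset (Sym2 V)) v = 0 := by simp [dg]
      rw [this]
      by_cases hv : v = a <;> simp [hv]
    | cons b t =>
      have h2 := (List.nodup_cons.1 h).2
      have h1 := (List.nodup_cons.1 h).1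
      have IH := ih h2 (by simp)
      rw [pe_cons_cons, dg_insert (notMem_pe_cons h)]
      simp only [List.head_cons, ne_eq, reduceCtorEq, not_false_eq_true, List.getLast_cons,
        Sym2.mem_iff] at IH ⊢
      have hab : a ≠ b := by
        rintro rfl
        simp at h1
      by_cases hva : v = a
      · subst hva
        have hvl : v ≠ (b :: t).getLast (by simp) := by
          intro hh
          exact h1 (hh ▸ List.getLast_mem _)
        simp [hab, h1, hvl] at IH ⊢
        exact IH
      · have e1 : (v ∈ a :: b :: t) ↔ v ∈ b :: t := by simp [hva]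
        simp only [e1]
        rw [← IH]
        by_cases h3 : v = b
        · simp only [h3, if_true, or_true, hab.symm, if_false]
        · simp only [h3, hva, if_false, or_false]

lemma dg_pe_le {l : List V} (h : l.Nodup) (v : V) : dg (pe l) v ≤ 2 := by
  by_cases hl : l = []
  · subst hl; simp [dg]
  · have := dg_pe h hl v
    split_ifs at this <;> omega

lemma dg_pe_pos {l : List V} (h : l.Nodup) (hl : 2 ≤ l.length) {v : V} (hv : v ∈ l) :
    1 ≤ dg (pe l) v := by
  have hne : l ≠ [] := by rintro rfl; simp at hl
  have := dg_pe h hne v
  rw [if_pos hv] at this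
  have hht : l.head hne ≠ l.getLast hne := by
    cases l with
    | nil => exact absurd rfl hne
    | cons a t =>
      cases t with
      | nil => simp at hl
      | cons b t =>
        simp only [List.head_cons, ne_eq, reduceCtorEq, not_false_eq_true, List.getLast_cons]
        intro hh
        exact (List.nodup_cons.1 h).1 (hh ▸ List.getLast_mem _)
  split_ifs at this with h1 h2
  · exact absurd (h1.symm.trans h2) hht
  all_goals omega

/-- Connectivity: a set of vertices such that no edge of the path crosses it. -/
lemma conn_pe {l : List V} (T : V → Prop)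
    (hT : ∀ x y, s(x, y) ∈ pe l → T x → T y) {x y : V} (hx : x ∈ l) (hy : y ∈ l) (h : T x) :
    T y := by
  have key : ∀ (l : List V), (∀ x y, s(x, y) ∈ pe l → T x → T y) → ∀ (hl : l ≠ []),
      ∀ y ∈ l, (T y ↔ T (l.head hl)) := by
    intro l
    induction l with
    | nil => intro _ hl; exact absurd rfl hl
    | cons a t ih =>
      intro hT _ y hy
      rcases List.mem_cons.1 hy with rfl | hy
      · rfl
      · have ht : t ≠ [] := List.ne_nil_of_mem hy
        have h1 := ih (fun x y hxy => hT x y (by rw [pe_cons ht]; exact mem_insert_of_mem hxy)) ht y hy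
        rw [h1, List.head_cons]
        have h2 : s(a, t.head ht) ∈ pe (a :: t) := by rw [pe_cons ht]; exact mem_insert_self _ _
        exact ⟨fun h => hT _ _ (by rw [Sym2.eq_swap]; exact h2) h, fun h => hT _ _ h2 h⟩
  have hne : l ≠ [] := List.ne_nil_of_mem hx
  rw [key l hT hne y hy, ← key l hT hne x hx]
  exact h

end Pool.Agent.H10.PG
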