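import Pool.Agent.H10.PG.Adj

set_option autoImplicit false

namespace Pool.Agent.H10.PG

open Finset

variable {V : Type*} [DecidableEq V] [Fintype V]

lemma rot_split {l : List V} {i j : ℕ} (hij : i < j) (hj : j < l.length) :
    ∃ A B, A ≠ [] ∧ B ≠ [] ∧ l.rotate i = A ++ B ∧ l.rotate j = B ++ A ∧ A.length = j - i ∧
      B.length = l.length - (j - i) := by
  refine ⟨(l.rotate i).take (j - i), (l.rotate i).drop (j - i), ?_, ?_,
    (List.take_append_drop _ _).symm, ?_, ?_, ?_⟩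
  · rw [← List.length_pos_iff, List.length_take, List.length_rotate]; omega
  · rw [← List.length_pos_iff, List.length_drop, List.length_rotate]; omega
  · rw [← List.rotate_eq_drop_append_take (by rw [List.length_rotate]; omega), List.rotate_rotate]
    congr 1; omega
  · rw [List.length_take, List.length_rotate]; omega
  · rw [List.length_drop, List.length_rotate]

lemma ad_rotate {l : List V} (hf : Full l) (h3 : 3 ≤ Fintype.card V) {i j : ℕ} (hij : i ≠ j)
    (hi : i < Fintype.card V) (hj : j < Fintype.card V) :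
    Ad (pe (l.rotate i)) (pe (l.rotate j)) := by
  have hl := hf.length
  rcases lt_or_gt_of_ne hij with h | h
  · obtain ⟨A, B, hA, hB, h1, h2, -, -⟩ := rot_split (l := l) h (by omega)
    rw [h1, h2]
    exact ad_rot hA hB (h1 ▸ hf.rotate i) h3
  · obtain ⟨A, B, hA, hB, h1, h2, -, -⟩ := rot_split (l := l) h (by omega)
    rw [h1, h2]
    exact (ad_rot hA hB (h1 ▸ hf.rotate j) h3).symm

lemma rotate_inj {l : List V} (hf : Full l) (h3 : 3 ≤ Fintype.card V) {i j : ℕ}
    (hi : i < Fintype.card V) (hj : j < Fintype.card V)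
    (h : pe (l.rotate i) = pe (l.rotate j)) : i = j := by
  by_contra hij
  exact (ad_rotate hf h3 hij hi hj).ne (hf.rotate i).hp (by omega) h

lemma SC_rotate {l : List V} (hf : Full l) {i : ℕ} (hi : i ≤ l.length) :
    SC (pe l) (pe (l.rotate i)) := by
  refine ⟨l.take i, l.drop i, ?_, ?_, ?_⟩
  · rw [List.take_append_drop]; exact hf
  · rw [List.take_append_drop]
  · rw [← List.rotate_eq_drop_append_take hi]

lemma SC_rotate' {l : List V} (hf : Full l) (i : ℕ) :
    SC (pe l) (pe (l.rotate i)) := by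
  rw [← List.rotate_mod]
  by_cases hl : l = []
  · subst hl; simpa using SC.refl hf.hp
  exact SC_rotate hf (Nat.mod_lt _ (List.length_pos_iff.2 hl)).le

lemma SC_iff_rotate {l : List V} (hf : Full l) (h3 : 3 ≤ Fintype.card V) {S : Finset (Sym2 V)} :
    SC (pe l) S ↔ ∃ i < Fintype.card V, S = pe (l.rotate i) := by
  rw [SC_iff hf h3]
  constructor
  · rintro ⟨A, B, rfl, rfl⟩
    have hlen := hf.length
    rw [List.length_append] at hlen
    by_cases hB : B = []
    · subst hB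
      refine ⟨0, by omega, by simp⟩
    · have := List.length_pos_iff.2 hB
      refine ⟨A.length, by omega, ?_⟩
      rw [List.rotate_append_length_eq]
  · rintro ⟨i, hi, rfl⟩
    rw [← hf.length] at hi
    exact ⟨l.take i, l.drop i, (List.take_append_drop _ _).symm,
      by rw [← List.rotate_eq_drop_append_take hi.le]⟩

lemma SC.trans' {l : List V} (hf : Full l) (h3 : 3 ≤ Fintype.card V) {S T : Finset (Sym2 V)}
    (h1 : SC S (pe l)) (h2 : SC (pe l) T) : SC S T := by
  obtain ⟨i, hi, rfl⟩ := (SC_iff_rotate hf h3).1 h1.symm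
  obtain ⟨j, hj, rfl⟩ := (SC_iff_rotate hf h3).1 h2
  rw [SC_iff_rotate (hf.rotate i) h3]
  refine ⟨(j + (Fintype.card V - i)) % Fintype.card V, Nat.mod_lt _ (by omega), ?_⟩
  rw [List.rotate_rotate]
  have hl := hf.length
  have e1 : l.rotate (i + (j + (Fintype.card V - i)) % Fintype.card V) = l.rotate j := by
    rw [← List.rotate_mod, ← List.rotate_mod (n := j), hl, Nat.add_mod_mod]
    congr 1
    have : i + (j + (Fintype.card V - i)) = j + Fintype.card V := by omega
    rw [this, Nat.add_mod_right]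
  rw [e1]

/-- in a Hamiltonian cycle adjacent paths have three common neighbours -/
lemma three_of_SC {P Q : Finset (Sym2 V)} (h5 : 5 ≤ Fintype.card V) (hPQ : P ≠ Q)
    (h : SC P Q) : Ad P Q ∧ ∃ R1 R2 R3 : Finset (Sym2 V), HP R1 ∧ HP R2 ∧ HP R3 ∧ R1 ≠ R2 ∧ R1 ≠ R3 ∧
      R2 ≠ R3 ∧ (Ad P R1 ∧ Ad Q R1) ∧ (Ad P R2 ∧ Ad Q R2) ∧ (Ad P R3 ∧ Ad Q R3) := by
  obtain ⟨A, B, hf, rfl, rfl⟩ := h
  obtain ⟨i, hi, hQi⟩ := (SC_iff_rotate hf (by omega)).1 ⟨A, B, hf, rfl, rfl⟩
  set l := A ++ B with hl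
  rw [hQi] at hPQ ⊢
  have h0 : pe l = pe (l.rotate 0) := by simp
  have hi0 : i ≠ 0 := by
    rintro rfl
    exact hPQ (by simp)
  rw [h0]
  refine ⟨ad_rotate hf (by omega) (Ne.symm hi0) (by omega) hi, ?_⟩
  have key : ∀ a b c : ℕ, a ≠ 0 → b ≠ 0 → c ≠ 0 → a ≠ i → b ≠ i → c ≠ i → a ≠ b → a ≠ c →
      b ≠ c → a < 5 → b < 5 → c < 5 → ∃ R1 R2 R3 : Finset (Sym2 V), HP R1 ∧ HP R2 ∧ HP R3 ∧
      R1 ≠ R2 ∧ R1 ≠ R3 ∧ R2 ≠ R3 ∧ (Ad (pe (l.rotate 0)) R1 ∧ Ad (pe (l.rotate i)) R1) ∧
      (Ad (pe (l.rotate 0)) R2 ∧ Ad (pe (l.rotate i)) R2) ∧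
      (Ad (pe (l.rotate 0)) R3 ∧ Ad (pe (l.rotate i)) R3) := by
    intro a b c ha hb hc hai hbi hci hab hac hbc ha5 hb5 hc5
    refine ⟨pe (l.rotate a), pe (l.rotate b), pe (l.rotate c), (hf.rotate _).hp, (hf.rotate _).hp,
      (hf.rotate _).hp, ?_, ?_, ?_, ⟨?_, ?_⟩, ⟨?_, ?_⟩, ⟨?_, ?_⟩⟩
    · intro h; exact hab (rotate_inj hf (by omega) (by omega) (by omega) h)
    · intro h; exact hac (rotate_inj hf (by omega) (by omega) (by omega) h)
    · intro h; exact hbc (rotate_inj hf (by omega) (by omega) (by omega) h)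
    all_goals
      apply ad_rotate hf (by omega) _ (by omega) (by omega)
      first
        | exact Ne.symm ha
        | exact Ne.symm hb
        | exact Ne.symm hc
        | exact Ne.symm hai
        | exact Ne.symm hbi
        | exact Ne.symm hci
  by_cases c1 : i = 1
  · exact key 2 3 4 (by omega) (by omega) (by omega) (by omega) (by omega) (by omega) (by omega)
      (by omega) (by omega) (by omega) (by omega) (by omega)
  by_cases c2 : i = 2
  · exact key 1 3 4 (by omega) (by omega) (by omega) (by omega) (by omega) (by omega) (by omega)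
      (by omega) (by omega) (by omega) (by omega) (by omega)
  by_cases c3 : i = 3
  · exact key 1 2 4 (by omega) (by omega) (by omega) (by omega) (by omega) (by omega) (by omega)
      (by omega) (by omega) (by omega) (by omega) (by omega)
  · exact key 1 2 3 (by omega) (by omega) (by omega) (by omega) (by omega) (by omega) (by omega)
      (by omega) (by omega) (by omega) (by omega) (by omega)

lemma SC_of_three_aux {A B : List V} (hA : A ≠ []) (hB : B ≠ []) (hf : Full (A ++ B))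
    (h3 : 3 ≤ Fintype.card V) (hne : pe (A ++ B) ≠ pe (A.reverse ++ B))
    {R1 R2 R3 : Finset (Sym2 V)}
    (h1 : HP R1) (h2 : HP R2) (h3' : HP R3) (h12 : R1 ≠ R2) (h13 : R1 ≠ R3) (h23 : R2 ≠ R3)
    (a1 : Ad (pe (A ++ B)) R1 ∧ Ad (pe (A.reverse ++ B)) R1)
    (a2 : Ad (pe (A ++ B)) R2 ∧ Ad (pe (A.reverse ++ B)) R2)
    (a3 : Ad (pe (A ++ B)) R3 ∧ Ad (pe (A.reverse ++ B)) R3) :
    SC (pe (A ++ B)) (pe (A.reverse ++ B)) := by
  by_cases hA2 : 2 ≤ A.length
  · by_cases hB2 : 2 ≤ B.length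
    · exfalso
      have b1 := common_rev hA hB hf hA2 hB2 h1 a1.1 a1.2
      have b2 := common_rev hA hB hf hA2 hB2 h2 a2.1 a2.2
      have b3 := common_rev hA hB hf hA2 hB2 h3' a3.1 a3.2
      rcases b1 with b1 | b1 <;> rcases b2 with b2 | b2 <;> rcases b3 with b3 | b3
      · exact h12 (b1.trans b2.symm)
      · exact h12 (b1.trans b2.symm)
      · exact h13 (b1.trans b3.symm)
      · exact h23 (b2.trans b3.symm)
      · exact h23 (b2.trans b3.symm)
      · exact h13 (b1.trans b3.symm)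
      · exact h12 (b1.trans b2.symm)
      · exact h12 (b1.trans b2.symm)
    · have hB1 : B.length = 1 := by
        have := List.length_pos_iff.2 hB
        omega
      obtain ⟨b, rfl⟩ := List.length_eq_one_iff.1 hB1
      refine ⟨A, [b], hf, rfl, ?_⟩
      rw [← pe_reverse]
      simp
  · have hA1 : A.length = 1 := by
      have := List.length_pos_iff.2 hA
      omega
    obtain ⟨a, rfl⟩ := List.length_eq_one_iff.1 hA1
    exact absurd rfl hne

lemma SC_of_three {P Q R1 R2 R3 : Finset (Sym2 V)} (h3 : 3 ≤ Fintype.card V) (hP : HP P)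
    (hQ : HP Q) (hPQ : Ad P Q) (h1 : HP R1) (h2 : HP R2) (h3' : HP R3)
    (h12 : R1 ≠ R2) (h13 : R1 ≠ R3) (h23 : R2 ≠ R3)
    (a1 : Ad P R1 ∧ Ad Q R1) (a2 : Ad P R2 ∧ Ad Q R2) (a3 : Ad P R3 ∧ Ad Q R3) : SC P Q := by
  obtain ⟨l, hf, rfl⟩ := hP
  obtain ⟨A, B, hA, hB, rfl, h | h | h⟩ := nbr hf hQ h3 hPQ
  · exact ⟨A, B, hf, rfl, h⟩
  · rw [h] at hPQ a1 a2 a3 ⊢
    exact SC_of_three_aux hA hB hf h3 (hPQ.ne hf.hp (by omega)) h1 h2 h3' h12 h13 h23 a1 a2 a3
  · have e1 : pe (A ++ B) = pe (B.reverse ++ A.reverse) := by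
      rw [← List.reverse_append, pe_reverse]
    have e2 : pe (A ++ B.reverse) = pe (B.reverse.reverse ++ A.reverse) := by
      rw [← pe_reverse, List.reverse_append]
    rw [h, e1, e2] at hPQ
    rw [h, e1, e2] at a1 a2 a3
    rw [h, e1, e2]
    have hf' : Full (B.reverse ++ A.reverse) := by
      rw [← List.reverse_append]
      exact hf.perm (List.reverse_perm _).symm
    exact SC_of_three_aux (by simpa using hB) (by simpa using hA) hf' h3
      (hPQ.ne hf'.hp (by omega)) h1 h2 h3' h12 h13 h23 a1 a2 a3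

end Pool.Agent.H10.PG
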