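import Pool.Agent.H10.PG.Defs
import Pool.Agent.H10.PG.Rot

set_option autoImplicit false

namespace Pool.Agent.H10.PG

open Finset

variable {V : Type*} [DecidableEq V]

lemma edges_eq_pe {u v : V} (p : (⊤ : SimpleGraph V).Walk u v) :
    p.edges.toFinset = pe p.support := by
  induction p with
  | nil => simp
  | cons h q ih =>
    rw [SimpleGraph.Walk.edges_cons, SimpleGraph.Walk.support_cons, List.toFinset_cons, ih,
      pe_cons (SimpleGraph.Walk.support_ne_nil _)]
    simp

lemma exists_walk (a : V) (t : List V) (h : (a :: t).Nodup) :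
    ∃ (v : V) (p : (⊤ : SimpleGraph V).Walk a v), p.support = a :: t := by
  induction t generalizing a with
  | nil => exact ⟨a, SimpleGraph.Walk.nil, rfl⟩
  | cons b t ih =>
    obtain ⟨v, p, hp⟩ := ih b (List.nodup_cons.1 h).2
    have hab : (⊤ : SimpleGraph V).Adj a b := by
      rw [SimpleGraph.top_adj]
      rintro rfl
      simp at h
    exact ⟨v, SimpleGraph.Walk.cons hab p, by rw [SimpleGraph.Walk.support_cons, hp]⟩

lemma isSpanning_iff [Nonempty V] {S : Finset (Sym2 V)} : IsSpanningPath S ↔ HP S := by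
  constructor
  · rintro ⟨u, v, p, hp, rfl⟩
    exact ⟨p.support, ⟨hp.isPath.support_nodup, hp.mem_support⟩, edges_eq_pe p⟩
  · rintro ⟨l, hl, rfl⟩
    cases l with
    | nil =>
      obtain ⟨v⟩ := (inferInstance : Nonempty V)
      have := hl.all v
      simp at this
    | cons a t =>
      obtain ⟨v, p, hp⟩ := exists_walk a t hl.nodup
      refine ⟨a, v, p, ?_, ?_⟩
      · intro w
        rw [hp]
        exact List.count_eq_one_of_mem hl.nodup (hl.all w)
      · rw [edges_eq_pe, hp]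

variable [Fintype V] 

/-- vertices of the path graph -/
abbrev X (V : Type*) [DecidableEq V] := {S : Finset (Sym2 V) // IsSpanningPath S}

lemma X.hp [Nonempty V] (P : X V) : HP P.1 := isSpanning_iff.1 P.2

/-- the vertex given by a full list -/
def vt [Nonempty V] {l : List V} (h : Full l) : X V := ⟨pe l, isSpanning_iff.2 h.hp⟩

/-- the vertex given by a HP set -/
def vh [Nonempty V] {S : Finset (Sym2 V)} (h : HP S) : X V := ⟨S, isSpanning_iff.2 h⟩

lemma adj_iff [Nonempty V] (h3 : 3 ≤ Fintype.card V) {P Q : X V} :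
    (spanPathGraph V).Adj P Q ↔ Ad P.1 Q.1 := by
  constructor
  · intro h
    have := h.2
    unfold Ad; omega
  · intro h
    refine ⟨fun he => h.ne P.hp (by omega) (congrArg _ he), ?_⟩
    unfold Ad at h; omega

variable [Nonempty V] (φ : spanPathGraph V ≃g spanPathGraph V)

lemma phi_ad (h3 : 3 ≤ Fintype.card V) {P Q : X V} : Ad (φ P).1 (φ Q).1 ↔ Ad P.1 Q.1 := by
  rw [← adj_iff h3, ← adj_iff h3]
  exact φ.map_adj_iff

lemma phi_ne {P Q : X V} (h : P.1 ≠ Q.1) : (φ P).1 ≠ (φ Q).1 := by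
  intro hh
  exact h (congrArg _ (φ.injective (Subtype.ext hh)))

lemma phi_SC (h5 : 5 ≤ Fintype.card V) {P Q : X V} (h : SC P.1 Q.1) :
    SC (φ P).1 (φ Q).1 := by
  by_cases hPQ : P = Q
  · subst hPQ; exact SC.refl (X.hp (φ P))
  · have hne : P.1 ≠ Q.1 := fun h => hPQ (Subtype.ext h)
    obtain ⟨had, R1, R2, R3, h1, h2, h3, h12, h13, h23, a1, a2, a3⟩ := three_of_SC h5 hne h
    have h33 : 3 ≤ Fintype.card V := by omega
    exact SC_of_three h33 (X.hp (φ P)) (X.hp (φ Q)) ((phi_ad φ h33).2 had) (X.hp (φ (vh h1)))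
      (X.hp (φ (vh h2))) (X.hp (φ (vh h3))) (phi_ne φ (P := vh h1) (Q := vh h2) h12)
      (phi_ne φ (P := vh h1) (Q := vh h3) h13) (phi_ne φ (P := vh h2) (Q := vh h3) h23)
      ⟨(phi_ad φ h33 (Q := vh h1)).2 a1.1, (phi_ad φ h33 (Q := vh h1)).2 a1.2⟩
      ⟨(phi_ad φ h33 (Q := vh h2)).2 a2.1, (phi_ad φ h33 (Q := vh h2)).2 a2.2⟩
      ⟨(phi_ad φ h33 (Q := vh h3)).2 a3.1, (phi_ad φ h33 (Q := vh h3)).2 a3.2⟩

lemma phi_SC_iff (h5 : 5 ≤ Fintype.card V) {P Q : X V} :
    SC (φ P).1 (φ Q).1 ↔ SC P.1 Q.1 := by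
  constructor
  · intro h
    have := phi_SC φ.symm h5 h
    simpa using this
  · exact phi_SC φ h5

/-- all common neighbours lie on the same Hamiltonian cycle -/
def Near (P Q : X V) : Prop := ∀ R : X V, Ad P.1 R.1 → Ad Q.1 R.1 → SC P.1 R.1

lemma phi_near (h5 : 5 ≤ Fintype.card V) {P Q : X V} (h : Near P Q) : Near (φ P) (φ Q) := by
  intro R h1 h2
  have h33 : 3 ≤ Fintype.card V := by omega
  have e : R = φ (φ.symm R) := by simp
  rw [e] at h1 h2 ⊢
  rw [phi_ad φ h33] at h1 h2
  rw [phi_SC_iff φ h5]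
  exact h _ h1 h2

omit φ in
lemma near_append {A B : List V} (hA : A ≠ []) (hB : B ≠ []) (hf : Full (A ++ B))
    (h3 : 3 ≤ Fintype.card V) :
    Near (vt hf) (vt hf.swap) ↔ A.length = 1 ∨ B.length = 1 := by
  constructor
  · intro h
    by_contra hcon
    push Not at hcon
    have l1 := List.length_pos_iff.2 hA
    have l2 := List.length_pos_iff.2 hB
    exact not_SC_rev hA hB hf (by omega) (by omega)
      (h (vt hf.revL) (ad_rev hA hB hf (by omega)) (ad_rev' hA hB hf (by omega)))
  · intro h R h1 h2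
    have hcases := common_rot hA hB hf h3 R.hp h1 h2
    rcases hcases with hc | hc | hc
    · exact hc
    · exfalso
      rcases h with h | h
      · obtain ⟨a, rfl⟩ := List.length_eq_one_iff.1 h
        exact h1.ne hf.hp (by omega) hc.symm
      · obtain ⟨b, rfl⟩ := List.length_eq_one_iff.1 h
        apply h2.ne hf.swap.hp (by omega)
        change pe ([b] ++ A) = R.1
        rw [hc, ← pe_reverse]
        simp
    · exfalso
      rcases h with h | h
      · obtain ⟨a, rfl⟩ := List.length_eq_one_iff.1 h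
        apply h2.ne hf.swap.hp (by omega)
        change pe (B ++ [a]) = R.1
        rw [hc, ← pe_reverse]
        simp
      · obtain ⟨b, rfl⟩ := List.length_eq_one_iff.1 h
        exact h1.ne hf.hp (by omega) hc.symm

omit φ in
lemma near_symm_imp {P Q : X V} (hf : SC P.1 Q.1) (h3 : 3 ≤ Fintype.card V) (h : Near P Q) :
    Near Q P := by
  intro R h1 h2
  have h4 := h R h2 h1
  obtain ⟨l, hl, hPl⟩ := P.hp
  rw [hPl] at hf h4
  exact SC.trans' hl h3 hf.symm h4

omit φ in
lemma near_rotate {l : List V} (hf : Full l) (h3 : 3 ≤ Fintype.card V) {i j : ℕ}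
    (hij : i < j) (hj : j < Fintype.card V) :
    Near (vt (hf.rotate i)) (vt (hf.rotate j)) ↔ j = i + 1 ∨ j = i + (Fintype.card V - 1) := by
  have hl := hf.length
  obtain ⟨A, B, hA, hB, h1, h2, h4, h5⟩ := rot_split (l := l) hij (by omega)
  have hf' : Full (A ++ B) := h1 ▸ hf.rotate i
  have e1 : vt (hf.rotate i) = vt hf' := Subtype.ext (by change pe _ = pe _; rw [h1])
  have e2 : vt (hf.rotate j) = vt hf'.swap := Subtype.ext (by change pe _ = pe _; rw [h2])
  rw [e1, e2, near_append hA hB hf' h3, h4, h5, hl]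
  omega

end Pool.Agent.H10.PG
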