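import Pool.Agent.H10.PG.Joins

set_option autoImplicit false

namespace Pool.Agent.H10.PG

open Finset

variable {V : Type*} [DecidableEq V]

lemma split_of_mem {l : List V} (hl : l.Nodup) {e : Sym2 V} (he : e ∈ pe l) :
    ∃ A B, ∃ (hA : A ≠ []) (hB : B ≠ []), l = A ++ B ∧ e = s(A.getLast hA, B.head hB) := by
  induction l with
  | nil => simp at he
  | cons a t ih =>
    cases t with
    | nil => simp at he
    | cons b t =>
      rw [pe_cons_cons, mem_insert] at he
      rcases he with he | he
      · exact ⟨[a], b :: t, by simp, by simp, rfl, by simpa using he⟩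
      · obtain ⟨A, B, hA, hB, h1, h2⟩ := ih (List.nodup_cons.1 hl).2 he
        refine ⟨a :: A, B, by simp, hB, by rw [h1]; rfl, ?_⟩
        rw [h2, List.getLast_cons hA]

lemma cross_notMem {A B : List V} (h : (A ++ B).Nodup) {a b : V} (ha : a ∈ A) (hb : b ∈ B) :
    s(a, b) ∉ pe A ∪ pe B := by
  intro hm
  rcases mem_union.1 hm with hm | hm
  · exact disj_of_append h (mem_of_mem_pe hm (Sym2.mem_mk_right _ _)) hb
  · exact disj_of_append h ha (mem_of_mem_pe hm (Sym2.mem_mk_left _ _))

lemma head_ne_last {A : List V} (hn : A.Nodup) (hA : A ≠ []) (h2 : 2 ≤ A.length) :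
    A.head hA ≠ A.getLast hA := by
  cases A with
  | nil => exact absurd rfl hA
  | cons a t =>
    cases t with
    | nil => simp at h2
    | cons b t =>
      simp only [List.head_cons, ne_eq, reduceCtorEq, not_false_eq_true, List.getLast_cons]
      intro hh
      exact (List.nodup_cons.1 hn).1 (hh ▸ List.getLast_mem _)

lemma cross_eq {A B : List V} (h : (A ++ B).Nodup) {a b a' b' : V} (ha : a ∈ A) (hb : b ∈ B)
    (ha' : a' ∈ A) (hb' : b' ∈ B) (he : s(a, b) = s(a', b')) : a = a' ∧ b = b' := by
  rw [Sym2.eq_iff] at he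
  rcases he with he | he
  · exact he
  · exact absurd (disj_of_append h ha (he.1 ▸ hb')) id

/-- the edge set of the closed cycle through the list -/
def ce (l : List V) : Finset (Sym2 V) :=
  if h : l ≠ [] then insert s(l.head h, l.getLast h) (pe l) else ∅

lemma ce_append {A B : List V} (hA : A ≠ []) (hB : B ≠ []) :
    ce (A ++ B) = insert s(A.head hA, B.getLast hB)
      (insert s(A.getLast hA, B.head hB) (pe A ∪ pe B)) := by
  have h : A ++ B ≠ [] := by simp [hA]
  unfold ce
  rw [dif_pos h, pe_append hA hB, List.head_append_of_ne_nil hA, List.getLast_append_of_ne_nil _ hB]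

lemma ce_append_comm {A B : List V} : ce (A ++ B) = ce (B ++ A) := by
  by_cases hA : A = []
  · simp [hA]
  by_cases hB : B = []
  · simp [hB]
  rw [ce_append hA hB, ce_append hB hA, Finset.insert_comm, union_comm, Sym2.eq_swap,
    Sym2.eq_swap (a := B.getLast hB)]
  
lemma pe_sub_ce (l : List V) : pe l ⊆ ce l := by
  unfold ce
  split_ifs with h
  · exact subset_insert _ _
  · have : l = [] := by simpa using h
    subst this; simp

lemma pe_sub_ce' {A B : List V} : pe (B ++ A) ⊆ ce (A ++ B) := by
  rw [ce_append_comm]; exact pe_sub_ce _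

/-- two spanning paths lie in a common Hamiltonian cycle -/
def SC (S T : Finset (Sym2 V)) : Prop :=
  ∃ A B : List V, Full (A ++ B) ∧ S = pe (A ++ B) ∧ T = pe (B ++ A)

lemma SC.symm {S T : Finset (Sym2 V)} (h : SC S T) : SC T S := by
  obtain ⟨A, B, hf, h1, h2⟩ := h
  exact ⟨B, A, hf.swap, h2, h1⟩

lemma SC.refl {S : Finset (Sym2 V)} (h : HP S) : SC S S := by
  obtain ⟨l, hl, rfl⟩ := h
  exact ⟨[], l, by simpa using hl, by simp, by simp⟩

variable [Fintype V]

lemma closing_notMem {l : List V} (hf : Full l) (h3 : 3 ≤ Fintype.card V) (hl : l ≠ []) :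
    s(l.head hl, l.getLast hl) ∉ pe l := by
  intro hm
  obtain ⟨A, B, hA, hB, h1, h2⟩ := split_of_mem hf.nodup hm
  have hlen := hf.length
  subst h1
  rw [List.head_append_of_ne_nil hA, List.getLast_append_of_ne_nil _ hB] at h2
  obtain ⟨e1, e2⟩ := cross_eq hf.nodup (List.head_mem hA) (List.getLast_mem hB)
    (List.getLast_mem hA) (List.head_mem hB) h2
  have hnA := (List.nodup_append.1 hf.nodup).1
  have hnB := (List.nodup_append.1 hf.nodup).2.1
  have l1 : A.length < 2 := by
    by_contra hcon
    exact head_ne_last hnA hA (by omega) e1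
  have l2 : B.length < 2 := by
    by_contra hcon
    exact head_ne_last hnB hB (by omega) e2.symm
  rw [List.length_append] at hlen
  omega

lemma card_ce {l : List V} (hf : Full l) (h3 : 3 ≤ Fintype.card V) :
    (ce l).card = Fintype.card V := by
  have hl : l ≠ [] := by
    rintro rfl
    have := hf.length
    simp at this
    omega
  unfold ce
  rw [dif_pos hl, card_insert_of_notMem (closing_notMem hf h3 hl), card_pe hf.nodup, hf.length]
  omega

/-- the spanning paths inside a Hamiltonian cycle are the rotations -/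
lemma sub_ce {l : List V} (hf : Full l) (h3 : 3 ≤ Fintype.card V) {S : Finset (Sym2 V)}
    (hS : HP S) (hsub : S ⊆ ce l) : ∃ A B, l = A ++ B ∧ S = pe (B ++ A) := by
  have hl : l ≠ [] := by
    rintro rfl
    have := hf.length
    simp at this
    omega
  have hc := hS.card
  have hcc := card_ce hf h3
  obtain ⟨x, hx, hSx⟩ := (Finset.exists_eq_insert_iff (s := S) (t := ce l)).2 ⟨hsub, by omega⟩
  have hSe : S = (ce l).erase x := by
    rw [← hSx, erase_insert hx]
  have hxc : x ∈ ce l := by rw [← hSx]; exact mem_insert_self _ _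
  by_cases hxl : x ∈ pe l
  · obtain ⟨A, B, hA, hB, h1, h2⟩ := split_of_mem hf.nodup hxl
    refine ⟨A, B, h1, ?_⟩
    subst h1
    rw [join2 hA hB, hSe, ce_append hA hB, Finset.insert_comm, ← h2, erase_insert]
    rw [mem_insert, not_or]
    constructor
    · rw [h2]
      intro hcon
      obtain ⟨e1, e2⟩ := cross_eq hf.nodup (List.getLast_mem hA) (List.head_mem hB)
        (List.head_mem hA) (List.getLast_mem hB) hcon
      have hcl := closing_notMem hf h3 hl
      apply hcl
      rw [List.head_append_of_ne_nil hA, List.getLast_append_of_ne_nil _ hB, ← hcon, pe_append hA hB]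
      exact mem_insert_self _ _
    · rw [h2]
      exact cross_notMem hf.nodup (List.getLast_mem hA) (List.head_mem hB)
  · refine ⟨[], l, rfl, ?_⟩
    rw [List.append_nil, hSe]
    unfold ce at hxc ⊢
    rw [dif_pos hl] at hxc ⊢
    rw [mem_insert] at hxc
    rcases hxc with hxc | hxc
    · rw [hxc, erase_insert (closing_notMem hf h3 hl)]
    · exact absurd hxc hxl

end Pool.Agent.H10.PG
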