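import Mathlib

set_option autoImplicit false

namespace Pool.Agent.H10.PG

/-- `S` is the edge set of a spanning path (Hamiltonian path) of the complete graph on `V`. -/
def IsSpanningPath {V : Type*} [DecidableEq V] (S : Finset (Sym2 V)) : Prop :=
  ∃ (u v : V) (p : (⊤ : SimpleGraph V).Walk u v), p.IsHamiltonian ∧ S = p.edges.toFinset

/-- The path graph of the complete graph on `V`: its vertices are the spanning paths
(identified with their edge sets); two distinct ones are adjacent when they share exactly
`|V| - 2` edges. -/
def spanPathGraph (V : Type*) [Fintype V] [DecidableEq V] :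
    SimpleGraph {S : Finset (Sym2 V) // IsSpanningPath S} where
  Adj P Q := P ≠ Q ∧ (P.1 ∩ Q.1).card = Fintype.card V - 2
  symm := ⟨fun P Q h => ⟨h.1.symm, by rw [Finset.inter_comm]; exact h.2⟩⟩
  loopless := ⟨fun P h => h.1 rfl⟩

variable {V : Type*} [DecidableEq V]

/-- A permutation as an endomorphism of the complete graph. -/
def topHom (σ : Equiv.Perm V) : (⊤ : SimpleGraph V) →g (⊤ : SimpleGraph V) where
  toFun := σ
  map_rel' := by
    intro a b h
    simpa using h

lemma IsSpanningPath.image {S : Finset (Sym2 V)} (h : IsSpanningPath S) (σ : Equiv.Perm V) :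
    IsSpanningPath (S.image (Sym2.map σ)) := by
  obtain ⟨u, v, p, hp, rfl⟩ := h
  refine ⟨topHom σ u, topHom σ v, p.map (topHom σ), ?_, ?_⟩
  · exact SimpleGraph.Walk.IsHamiltonian.map (topHom σ) σ.bijective hp
  · rw [SimpleGraph.Walk.edges_map]
    ext e
    simp only [Finset.mem_image, List.mem_toFinset, List.mem_map]
    rfl

variable [Fintype V]

/-- The automorphism of the path graph induced by a permutation of the vertices of the complete
graph: it sends a spanning path to its image. -/
def permIso (σ : Equiv.Perm V) : spanPathGraph V ≃g spanPathGraph V where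
  toFun P := ⟨P.1.image (Sym2.map σ), P.2.image σ⟩
  invFun P := ⟨P.1.image (Sym2.map σ.symm), P.2.image σ.symm⟩
  left_inv P := by
    apply Subtype.ext
    simp only [Finset.image_image]
    rw [← Sym2.map_comp]
    simp
  right_inv P := by
    apply Subtype.ext
    simp only [Finset.image_image]
    rw [← Sym2.map_comp]
    simp
  map_rel_iff' := by
    intro P Q
    have hinj : Function.Injective (Sym2.map σ) := Sym2.map.injective σ.injective
    simp only [spanPathGraph, Equiv.coe_fn_mk, ne_eq, Subtype.mk.injEq]
    rw [← Finset.image_inter _ _ hinj, Finset.card_image_of_injective _ hinj,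
      (Finset.image_injective hinj).eq_iff, Subtype.ext_iff]

/-- The natural homomorphism from the symmetric group to the automorphism group of the
path graph. -/
def permHom (V : Type*) [Fintype V] [DecidableEq V] :
    Equiv.Perm V →* (spanPathGraph V ≃g spanPathGraph V) where
  toFun := permIso
  map_one' := by
    apply RelIso.ext
    intro P
    apply Subtype.ext
    simp [permIso]
  map_mul' σ τ := by
    apply RelIso.ext
    intro P
    apply Subtype.ext
    simp only [permIso, RelIso.coe_fn_mk, Equiv.coe_fn_mk, RelIso.mul_apply, Finset.image_image]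
    rw [← Sym2.map_comp]
    simp

end Pool.Agent.H10.PG
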