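import Pool.Agent.H10.PG.Bridge

set_option autoImplicit false

namespace Pool.Agent.H10.PG

open Finset

variable {V : Type*} [DecidableEq V] [Fintype V]

lemma rotate_inj' {l : List V} (hf : Full l) (h3 : 3 ≤ Fintype.card V) {i j : ℕ}
    (h : pe (l.rotate i) = pe (l.rotate j)) : i % Fintype.card V = j % Fintype.card V := by
  apply rotate_inj hf h3 (Nat.mod_lt _ (by omega)) (Nat.mod_lt _ (by omega))
  rw [← hf.length, List.rotate_mod, List.rotate_mod]
  exact h

lemma rotate_congr {l : List V} (hf : Full l) {i j : ℕ}
    (h : (i : ZMod (Fintype.card V)) = (j : ZMod (Fintype.card V))) : l.rotate i = l.rotate j := by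
  rw [ZMod.natCast_eq_natCast_iff'] at h
  rw [← List.rotate_mod l i, ← List.rotate_mod l j, hf.length, h]

variable [Nonempty V] 

lemma near_succ {l : List V} (hf : Full l) (h3 : 3 ≤ Fintype.card V) (k : ℕ) :
    Near (vt (hf.rotate k)) (vt (hf.rotate (k + 1))) := by
  have hl := hf.length
  have hne : l.rotate k ≠ [] := by
    rw [← List.length_pos_iff, List.length_rotate]; omega
  obtain ⟨a, t, hat⟩ := List.exists_cons_of_ne_nil hne
  have ht : t ≠ [] := by
    rintro rfl
    have := congrArg List.length hat
    rw [List.length_rotate] at this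
    simp at this
    omega
  have h1 : l.rotate k = [a] ++ t := hat
  have h2 : l.rotate (k + 1) = t ++ [a] := by
    rw [← List.rotate_rotate, hat, List.rotate_cons_succ, List.rotate_zero]
  have hf' : Full ([a] ++ t) := h1 ▸ hf.rotate k
  have e1 : vt (hf.rotate k) = vt hf' := Subtype.ext (by change pe _ = pe _; rw [h1])
  have e2 : vt (hf.rotate (k + 1)) = vt hf'.swap :=
    Subtype.ext (by change pe _ = pe _; rw [h2])
  rw [e1, e2, near_append (by simp) ht hf' h3]
  left; rfl

/-- An automorphism of the path graph acts on each Hamiltonian cycle as a dihedral map. -/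
lemma dihedral (φ : spanPathGraph V ≃g spanPathGraph V) (h5 : 5 ≤ Fintype.card V)
    {l : List V} (hf : Full l) :
    ∃ m : List V, Full m ∧ ∀ k, (φ (vt (hf.rotate k))).1 = pe (m.rotate k) := by
  have h3 : 3 ≤ Fintype.card V := by omega
  obtain ⟨m0, hm0, hm0e⟩ := X.hp (φ (vt (hf.rotate 0)))
  have hSC : ∀ k, SC (pe m0) (φ (vt (hf.rotate k))).1 := by
    intro k
    rw [← hm0e]
    apply phi_SC φ h5
    have := SC_rotate' hf k
    change SC (pe (l.rotate 0)) (pe (l.rotate k))
    simpa using this
  have hτ : ∀ k, ∃ t < Fintype.card V, (φ (vt (hf.rotate k))).1 = pe (m0.rotate t) :=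
    fun k => (SC_iff_rotate hm0 h3).1 (hSC k)
  choose τ hτlt hτe using hτ
  have hinj : ∀ i j, τ i = τ j → i % Fintype.card V = j % Fintype.card V := by
    intro i j hij
    have h1 : φ (vt (hf.rotate i)) = φ (vt (hf.rotate j)) := by
      apply Subtype.ext
      rw [hτe, hτe, hij]
    have h2 := congrArg Subtype.val (φ.injective h1)
    exact rotate_inj' hf h3 h2
  have hNcast : ((Fintype.card V - 1 : ℕ) : ZMod (Fintype.card V)) = -1 := by
    rw [Nat.cast_sub (by omega), ZMod.natCast_self]
    simp
  have hstep : ∀ k, (τ (k + 1) : ZMod (Fintype.card V)) = τ k + 1 ∨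
      (τ (k + 1) : ZMod (Fintype.card V)) = τ k - 1 := by
    intro k
    have hn := phi_near φ h5 (near_succ hf h3 k)
    have e1 : φ (vt (hf.rotate k)) = vt (hm0.rotate (τ k)) := Subtype.ext (hτe k)
    have e2 : φ (vt (hf.rotate (k + 1))) = vt (hm0.rotate (τ (k + 1))) :=
      Subtype.ext (hτe (k + 1))
    rw [e1, e2] at hn
    rcases lt_trichotomy (τ k) (τ (k + 1)) with h | h | h
    · rw [near_rotate hm0 h3 h (hτlt _)] at hn
      rcases hn with hn | hn
      · left; rw [hn]; push_cast; rfl
      · right; rw [hn, Nat.cast_add, hNcast]; ring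
    · exfalso
      have := hinj _ _ h
      have h6 : (k + 1) % Fintype.card V = k % Fintype.card V := this.symm
      have : (k + 1) ≡ k [MOD Fintype.card V] := h6
      have h7 := (Nat.modEq_iff_dvd' (by omega)).1 this.symm
      have h8 : k + 1 - k = 1 := by omega
      rw [h8] at h7
      have := Nat.le_of_dvd (by norm_num) h7
      omega
    · have hSC2 : SC (vt (hm0.rotate (τ k))).1 (vt (hm0.rotate (τ (k + 1)))).1 := by
        have s1 := SC_rotate' hm0 (τ k)
        have s2 := SC_rotate' hm0 (τ (k + 1))
        exact SC.trans' hm0 h3 s1.symm s2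
      have hn' := near_symm_imp hSC2 h3 hn
      rw [near_rotate hm0 h3 h (hτlt _)] at hn'
      rcases hn' with hn' | hn'
      · right; rw [hn']; push_cast; ring
      · left; rw [hn', Nat.cast_add, hNcast]; ring
  have hne : ∀ k, (τ (k + 2) : ZMod (Fintype.card V)) ≠ τ k := by
    intro k h
    rw [ZMod.natCast_eq_natCast_iff', Nat.mod_eq_of_lt (hτlt _), Nat.mod_eq_of_lt (hτlt _)] at h
    have h6 := hinj _ _ h
    have : (k + 2) ≡ k [MOD Fintype.card V] := h6
    have h7 := (Nat.modEq_iff_dvd' (by omega)).1 this.symm
    have h8 : k + 2 - k = 2 := by omega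
    rw [h8] at h7
    have := Nat.le_of_dvd (by norm_num) h7
    omega
  rcases hstep 0 with h0 | h0
  · -- orientation preserving
    have hall : ∀ k, (τ (k + 1) : ZMod (Fintype.card V)) = τ k + 1 := by
      intro k
      induction k with
      | zero => exact h0
      | succ k ih =>
        rcases hstep (k + 1) with h | h
        · exact h
        · exfalso
          apply hne k
          rw [h, ih]; ring
    have hall' : ∀ k, (τ k : ZMod (Fintype.card V)) = τ 0 + k := by
      intro k
      induction k with
      | zero => simp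
      | succ k ih => rw [hall, ih]; push_cast; ring
    refine ⟨m0.rotate (τ 0), hm0.rotate _, fun k => ?_⟩
    rw [hτe k, List.rotate_rotate, rotate_congr hm0 (i := τ k) (j := τ 0 + k)]
    rw [hall' k]; push_cast; rfl
  · have hall : ∀ k, (τ (k + 1) : ZMod (Fintype.card V)) = τ k - 1 := by
      intro k
      induction k with
      | zero => exact h0
      | succ k ih =>
        rcases hstep (k + 1) with h | h
        · exfalso
          apply hne k
          rw [h, ih]; ring
        · exact h
    have hall' : ∀ k, (τ k : ZMod (Fintype.card V)) = τ 0 - k := by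
      intro k
      induction k with
      | zero => simp
      | succ k ih => rw [hall, ih]; push_cast; ring
    refine ⟨(m0.rotate (τ 0)).reverse, (hm0.rotate _).perm (List.reverse_perm _).symm,
      fun k => ?_⟩
    rw [hτe k, List.rotate_reverse, pe_reverse, List.rotate_rotate]
    rw [rotate_congr hm0 (i := τ k)]
    rw [hall' k, List.length_rotate, hm0.length, Nat.cast_add, Nat.cast_sub
      (Nat.mod_lt _ (by omega)).le, ZMod.natCast_self, ZMod.natCast_mod]
    ring

end Pool.Agent.H10.PG
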