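import Pool.Agent.H10.PG.Basic

set_option autoImplicit false

namespace Pool.Agent.H10.PG

open Finset

variable {V : Type*} [DecidableEq V]

/-- A list running through every element exactly once. -/
structure Full (l : List V) : Prop where
  nodup : l.Nodup
  all : ∀ v, v ∈ l

/-- Edge sets of spanning paths. -/
def HP (S : Finset (Sym2 V)) : Prop := ∃ l : List V, Full l ∧ S = pe l

lemma Full.hp {l : List V} (h : Full l) : HP (pe l) := ⟨l, h, rfl⟩

lemma Full.perm {l l' : List V} (h : Full l) (hp : l.Perm l') : Full l' :=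
  ⟨hp.nodup_iff.1 h.nodup, fun v => hp.mem_iff.1 (h.all v)⟩

lemma Full.rotate {l : List V} (h : Full l) (k : ℕ) : Full (l.rotate k) :=
  h.perm (l.rotate_perm k).symm

lemma Full.swap {A B : List V} (h : Full (A ++ B)) : Full (B ++ A) :=
  h.perm List.perm_append_comm

lemma Full.revL {A B : List V} (h : Full (A ++ B)) : Full (A.reverse ++ B) :=
  h.perm (List.Perm.append_right _ A.reverse_perm.symm)

lemma Full.revR {A B : List V} (h : Full (A ++ B)) : Full (A ++ B.reverse) :=
  h.perm (List.Perm.append_left _ B.reverse_perm.symm)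

lemma Full.length [Fintype V] {l : List V} (h : Full l) : l.length = Fintype.card V := by
  rw [← List.toFinset_card_of_nodup h.nodup]
  have : l.toFinset = Finset.univ := by
    ext v; simp [h.all v]
  rw [this, Finset.card_univ]

lemma HP.card [Fintype V] {S : Finset (Sym2 V)} (h : HP S) :
    S.card = Fintype.card V - 1 := by
  obtain ⟨l, hl, rfl⟩ := h
  rw [card_pe hl.nodup, hl.length]

lemma HP.dg_le {S : Finset (Sym2 V)} (h : HP S) (v : V) : dg S v ≤ 2 := by
  obtain ⟨l, hl, rfl⟩ := h
  exact dg_pe_le hl.nodup v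

lemma HP.conn {S : Finset (Sym2 V)} (h : HP S) (T : V → Prop)
    (hT : ∀ x y, s(x, y) ∈ S → T x → T y) {x : V} (hx : T x) (y : V) : T y := by
  obtain ⟨l, hl, rfl⟩ := h
  exact conn_pe T hT (hl.all x) (hl.all y) hx

lemma join1 {A B : List V} (hA : A ≠ []) (hB : B ≠ []) :
    pe (A ++ B) = insert s(A.getLast hA, B.head hB) (pe A ∪ pe B) := pe_append hA hB

lemma join2 {A B : List V} (hA : A ≠ []) (hB : B ≠ []) :
    pe (B ++ A) = insert s(A.head hA, B.getLast hB) (pe A ∪ pe B) := by
  rw [pe_append hB hA, union_comm, Sym2.eq_swap]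

lemma join3 {A B : List V} (hA : A ≠ []) (hB : B ≠ []) :
    pe (A.reverse ++ B) = insert s(A.head hA, B.head hB) (pe A ∪ pe B) := by
  rw [pe_append (by simpa using hA) hB, pe_reverse]
  simp

lemma join4 {A B : List V} (hA : A ≠ []) (hB : B ≠ []) :
    pe (A ++ B.reverse) = insert s(A.getLast hA, B.getLast hB) (pe A ∪ pe B) := by
  rw [pe_append hA (by simpa using hB), pe_reverse]
  simp

lemma disj_of_append {A B : List V} (h : (A ++ B).Nodup) {v : V} (hA : v ∈ A) (hB : v ∈ B) :
    False := (List.nodup_append.1 h).2.2 v hA v hB rfl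

lemma disjoint_pe {A B : List V} (h : (A ++ B).Nodup) : Disjoint (pe A) (pe B) := by
  rw [Finset.disjoint_left]
  intro e he he'
  induction e with
  | _ x y =>
    exact disj_of_append h (mem_of_mem_pe he (Sym2.mem_mk_left _ _))
      (mem_of_mem_pe he' (Sym2.mem_mk_left _ _))

lemma card_union_pe {A B : List V} (hA : A ≠ []) (hB : B ≠ []) (h : (A ++ B).Nodup) :
    (pe A ∪ pe B).card + 2 = (A ++ B).length := by
  rw [card_union_of_disjoint (disjoint_pe h), card_pe (List.nodup_append.1 h).1,
    card_pe (List.nodup_append.1 h).2.1]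
  have h1 : 0 < A.length := List.length_pos_iff.2 hA
  have h2 : 0 < B.length := List.length_pos_iff.2 hB
  simp only [List.length_append]
  omega

lemma dg_zero_of_notMem {A : List V} {v : V} (h : v ∉ A) : dg (pe A) v = 0 := by
  unfold dg
  rw [card_eq_zero, filter_eq_empty_iff]
  intro e he hv
  exact h (mem_of_mem_pe he hv)

/-- A spanning path containing the two pieces of a cut path is one of the four joins. -/
lemma four_joins [Fintype V] {A B : List V} (hA : A ≠ []) (hB : B ≠ []) (hf : Full (A ++ B))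
    {S : Finset (Sym2 V)} (hS : HP S) (hsub : pe A ∪ pe B ⊆ S) :
    S = pe (A ++ B) ∨ S = pe (B ++ A) ∨ S = pe (A.reverse ++ B) ∨ S = pe (A ++ B.reverse) := by
  have hcard := hS.card
  have hK := card_union_pe hA hB hf.nodup
  rw [hf.length] at hK
  have h1 : 0 < A.length := List.length_pos_iff.2 hA
  have h2 : 0 < B.length := List.length_pos_iff.2 hB
  obtain ⟨h, hh, hSh⟩ := (Finset.exists_eq_insert_iff (s := pe A ∪ pe B) (t := S)).2
    ⟨hsub, by omega⟩
  have hnA := (List.nodup_append.1 hf.nodup).1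
  have hnB := (List.nodup_append.1 hf.nodup).2.1
  -- crossing edge
  have hcross : ∃ x y, s(x, y) ∈ S ∧ x ∈ A ∧ y ∉ A := by
    by_contra hcon
    push Not at hcon
    have := hS.conn (fun v => v ∈ A) hcon (List.head_mem hA) (B.head hB)
    exact disj_of_append hf.nodup this (List.head_mem hB)
  obtain ⟨x, y, hxy, hx, hy⟩ := hcross
  have hyB : y ∈ B := by
    have := hf.all y
    rw [List.mem_append] at this
    tauto
  have hxB : x ∉ B := fun hxB => disj_of_append hf.nodup hx hxB
  have hxyh : s(x, y) = h := by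
    rw [← hSh, mem_insert, mem_union] at hxy
    rcases hxy with hxy | hxy | hxy
    · exact hxy
    · exact absurd (mem_of_mem_pe hxy (Sym2.mem_mk_right _ _)) hy
    · exact absurd (mem_of_mem_pe hxy (Sym2.mem_mk_left _ _)) hxB
  subst hxyh
  have dx := hS.dg_le x
  have dy := hS.dg_le y
  rw [← hSh, dg_insert hh, dg_union (disjoint_pe hf.nodup)] at dx dy
  rw [if_pos (Sym2.mem_mk_left _ _)] at dx
  rw [if_pos (Sym2.mem_mk_right _ _)] at dy
  have fx := dg_pe hnA hA x
  have fy := dg_pe hnB hB y
  rw [if_pos hx] at fx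
  rw [if_pos hyB] at fy
  have hx' : x = A.head hA ∨ x = A.getLast hA := by
    by_contra hcon
    push Not at hcon
    rw [if_neg hcon.1, if_neg hcon.2] at fx
    omega
  have hy' : y = B.head hB ∨ y = B.getLast hB := by
    by_contra hcon
    push Not at hcon
    rw [if_neg hcon.1, if_neg hcon.2] at fy
    omega
  rw [join1 hA hB, join2 hA hB, join3 hA hB, join4 hA hB]
  rcases hx' with rfl | rfl <;> rcases hy' with rfl | rfl
  · right; right; left; exact hSh.symm
  · right; left; exact hSh.symm
  · left; exact hSh.symm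
  · right; right; right; exact hSh.symm

/-- Johnson graph lemma. -/
lemma johnson {α : Type*} [DecidableEq α] {P Q R : Finset α} {m : ℕ}
    (hP : P.card = m + 1) (hQ : Q.card = m + 1) (hR : R.card = m + 1)
    (hPQ : (P ∩ Q).card = m) (hPR : (P ∩ R).card = m) (hQR : (Q ∩ R).card = m) :
    P ∩ Q ⊆ R ∨ R ⊆ P ∪ Q := by
  by_contra hcon
  push Not at hcon
  obtain ⟨hc1, hc2⟩ := hcon
  obtain ⟨x, hx, hxR⟩ := Finset.not_subset.1 hc1
  apply hc2
  rw [mem_inter] at hx
  have e1 : P ∩ R = P.erase x := by
    apply Finset.eq_of_subset_of_card_le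
    · intro y hy
      rw [mem_inter] at hy
      rw [mem_erase]
      exact ⟨fun h => hxR (h ▸ hy.2), hy.1⟩
    · rw [card_erase_of_mem hx.1, hP, hPR]; simp
  have e2 : Q ∩ R = Q.erase x := by
    apply Finset.eq_of_subset_of_card_le
    · intro y hy
      rw [mem_inter] at hy
      rw [mem_erase]
      exact ⟨fun h => hxR (h ▸ hy.2), hy.1⟩
    · rw [card_erase_of_mem hx.2, hQ, hQR]; simp
  have e3 : (P ∪ Q).erase x ⊆ R := by
    intro y hy
    rw [mem_erase, mem_union] at hy
    rcases hy with ⟨hyx, hy | hy⟩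
    · have : y ∈ P ∩ R := by rw [e1, mem_erase]; exact ⟨hyx, hy⟩
      exact (mem_inter.1 this).2
    · have : y ∈ Q ∩ R := by rw [e2, mem_erase]; exact ⟨hyx, hy⟩
      exact (mem_inter.1 this).2
  have hu := card_union_add_card_inter P Q
  have e4 : (P ∪ Q).erase x = R := by
    apply Finset.eq_of_subset_of_card_le e3
    rw [card_erase_of_mem (mem_union_left _ hx.1)]
    omega
  rw [← e4]
  exact erase_subset _ _

end Pool.Agent.H10.PG
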