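import Pool.Agent.H10.PG.Dihedral

set_option autoImplicit false

namespace Pool.Agent.H10.PG

open Finset

variable {V : Type*} [DecidableEq V] [Fintype V]

lemma johnson3 {α : Type*} [DecidableEq α] {K R : Finset α} {x1 x2 y1 y2 : α}
    (hx1 : x1 ∉ K) (hx2 : x2 ∉ K) (hy1 : y1 ∉ K) (hy2 : y2 ∉ K) (hx : x1 ≠ x2) (hy : y1 ≠ y2)
    (h11 : x1 ≠ y1) (h12 : x1 ≠ y2) (h21 : x2 ≠ y1) (h22 : x2 ≠ y2)
    (hR : R.card = K.card + 2)
    (hP : (insert x1 (insert x2 K) ∩ R).card = K.card + 1)
    (hQ : (insert y1 (insert y2 K) ∩ R).card = K.card + 1) :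
    R = insert x1 (insert y1 K) ∨ R = insert x1 (insert y2 K) ∨ R = insert x2 (insert y1 K) ∨
      R = insert x2 (insert y2 K) := by
  set P := insert x1 (insert x2 K) with hPdef
  set Q := insert y1 (insert y2 K) with hQdef
  have hPQ : P ∩ Q = K := by
    ext z
    simp only [hPdef, hQdef, mem_inter, mem_insert]
    constructor
    · rintro ⟨h1 | h1 | h1, h2 | h2 | h2⟩
      · exact absurd (h1.symm.trans h2) h11
      · exact absurd (h1.symm.trans h2) h12
      · exact h2
      · exact absurd (h1.symm.trans h2) h21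
      · exact absurd (h1.symm.trans h2) h22
      · exact h2
      · exact h1
      · exact h1
      · exact h1
    · intro h; exact ⟨Or.inr (Or.inr h), Or.inr (Or.inr h)⟩
  have hu := card_union_add_card_inter (P ∩ R) (Q ∩ R)
  have hsub : (P ∩ R) ∪ (Q ∩ R) ⊆ R := union_subset inter_subset_right inter_subset_right
  have hle := card_le_card hsub
  have hi : (P ∩ R) ∩ (Q ∩ R) = K ∩ R := by
    rw [← hPQ]; ext z; simp only [mem_inter]; tauto
  rw [hi] at hu
  have hKR : K ∩ R = K := by
    apply Finset.eq_of_subset_of_card_le inter_subset_left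
    omega
  have hKsub : K ⊆ R := by rw [← hKR]; exact inter_subset_right
  have hx' : x1 ∈ R ∨ x2 ∈ R := by
    by_contra hcon
    push Not at hcon
    have : P ∩ R ⊆ K := by
      intro z hz
      rw [mem_inter, hPdef, mem_insert, mem_insert] at hz
      rcases hz with ⟨h | h | h, hz⟩
      · exact absurd (h ▸ hz) hcon.1
      · exact absurd (h ▸ hz) hcon.2
      · exact h
    have := card_le_card this
    omega
  have hy' : y1 ∈ R ∨ y2 ∈ R := by
    by_contra hcon
    push Not at hcon
    have : Q ∩ R ⊆ K := by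
      intro z hz
      rw [mem_inter, hQdef, mem_insert, mem_insert] at hz
      rcases hz with ⟨h | h | h, hz⟩
      · exact absurd (h ▸ hz) hcon.1
      · exact absurd (h ▸ hz) hcon.2
      · exact h
    have := card_le_card this
    omega
  have fin : ∀ x y : α, x ∉ K → y ∉ K → x ≠ y → x ∈ R → y ∈ R → R = insert x (insert y K) := by
    intro x y hx hy hxy hxR hyR
    symm
    apply Finset.eq_of_subset_of_card_le
    · intro z hz
      rw [mem_insert, mem_insert] at hz
      rcases hz with h | h | h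
      · exact h ▸ hxR
      · exact h ▸ hyR
      · exact hKsub h
    · rw [card_insert_of_notMem, card_insert_of_notMem hy, hR]
      rw [mem_insert, not_or]
      exact ⟨hxy, hx⟩
  rcases hx' with h1 | h1 <;> rcases hy' with h2 | h2
  · left; exact fin _ _ hx1 hy1 h11 h1 h2
  · right; left; exact fin _ _ hx1 hy2 h12 h1 h2
  · right; right; left; exact fin _ _ hx2 hy1 h21 h1 h2
  · right; right; right; exact fin _ _ hx2 hy2 h22 h1 h2

omit [Fintype V] in
lemma three_edges {R : Finset (Sym2 V)} (hR : HP R) {v : V} {e1 e2 e3 : Sym2 V} (h1 : e1 ∈ R)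
    (h2 : e2 ∈ R) (h3 : e3 ∈ R) (h12 : e1 ≠ e2) (h13 : e1 ≠ e3) (h23 : e2 ≠ e3)
    (m1 : v ∈ e1) (m2 : v ∈ e2) (m3 : v ∈ e3) : False := by
  have hd := hR.dg_le v
  unfold dg at hd
  have hsub : ({e1, e2, e3} : Finset (Sym2 V)) ⊆ R.filter (fun e => v ∈ e) := by
    intro z hz
    simp only [mem_insert, mem_singleton] at hz
    rw [mem_filter]
    rcases hz with rfl | rfl | rfl
    · exact ⟨h1, m1⟩
    · exact ⟨h2, m2⟩
    · exact ⟨h3, m3⟩
  have hc := card_le_card hsub
  rw [card_insert_of_notMem (by simp [h12, h13]), card_insert_of_notMem (by simp [h23]),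
    card_singleton] at hc
  omega

section ctx

variable {a b c d : V} {Z : List V} (hZ : Z ≠ []) (hf : Full (a :: b :: c :: d :: Z))

/-- the common core -/
def K0 (a b c d : V) (Z : List V) : Finset (Sym2 V) := insert s(a, b) (insert s(c, d) (pe Z))

omit [Fintype V] in
lemma eqX1 : pe ([b, a] ++ ([c, d] ++ Z)) =
    insert s(a, c) (insert s(d, Z.head hZ) (K0 a b c d Z)) := by
  simp only [List.cons_append, List.nil_append, pe_cons_cons, pe_cons hZ, K0]
  rw [Sym2.eq_swap (a := b)]
  ext z; simp only [mem_insert]; tauto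

omit [Fintype V] in
lemma eqX2 : pe (([c, d] ++ Z) ++ [b, a]) =
    insert s(d, Z.head hZ) (insert s(Z.getLast hZ, b) (K0 a b c d Z)) := by
  rw [pe_append (by simp) (by simp)]
  simp only [List.cons_append, List.nil_append, pe_cons_cons, pe_cons hZ, K0, List.head_cons,
    pe_single]
  rw [List.getLast_cons (by simp), List.getLast_cons hZ, Sym2.eq_swap (a := b)]
  ext z; simp only [mem_insert, mem_union, notMem_empty]; tauto

omit [Fintype V] in
lemma eqY1 : pe ([d, c] ++ (Z ++ [a, b])) =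
    insert s(c, Z.head hZ) (insert s(Z.getLast hZ, a) (K0 a b c d Z)) := by
  rw [← List.append_assoc, pe_append (by simp) (by simp)]
  simp only [List.cons_append, List.nil_append, pe_cons_cons, pe_cons hZ, K0, List.head_cons,
    pe_single]
  rw [List.getLast_cons (by simp), List.getLast_cons hZ, Sym2.eq_swap (a := d)]
  ext z; simp only [mem_insert, mem_union, notMem_empty]; tauto

omit [Fintype V] in
lemma eqY2 : pe ((Z ++ [a, b]) ++ [d, c]) =
    insert s(Z.getLast hZ, a) (insert s(b, d) (K0 a b c d Z)) := by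
  rw [List.append_assoc, pe_append hZ (by simp)]
  simp only [List.cons_append, List.nil_append, pe_cons_cons, K0, List.head_cons,
    pe_single]
  rw [Sym2.eq_swap (a := d)]
  ext z; simp only [mem_insert, mem_union, notMem_empty]; tauto

omit [Fintype V] in
lemma eqU1 : pe (([c, d] ++ Z) ++ [a, b]) =
    insert s(d, Z.head hZ) (insert s(Z.getLast hZ, a) (K0 a b c d Z)) := by
  rw [pe_append (by simp) (by simp)]
  simp only [List.cons_append, List.nil_append, pe_cons_cons, pe_cons hZ, K0, List.head_cons,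
    pe_single]
  rw [List.getLast_cons (by simp), List.getLast_cons hZ]
  ext z; simp only [mem_insert, mem_union, notMem_empty]; tauto

include hf

omit [Fintype V] in
lemma facts : a ≠ b ∧ a ≠ c ∧ a ≠ d ∧ b ≠ c ∧ b ≠ d ∧ c ≠ d ∧ a ∉ Z ∧ b ∉ Z ∧ c ∉ Z ∧ d ∉ Z := by
  have := hf.nodup
  simp only [List.nodup_cons, List.mem_cons, not_or] at this
  tauto

include hZ in
lemma cardK0 : (K0 a b c d Z).card + 3 = Fintype.card V := by
  obtain ⟨hab, hac, had, hbc, hbd, hcd, ha, hb, hc, hd⟩ := facts hf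
  have hZn : Z.Nodup := by
    have := hf.nodup
    simp only [List.nodup_cons] at this
    exact this.2.2.2.2
  have hlen := hf.length
  simp only [List.length_cons] at hlen
  unfold K0
  rw [card_insert_of_notMem, card_insert_of_notMem, card_pe hZn]
  · have := List.length_pos_iff.2 hZ
    omega
  · intro h; exact hc (mem_of_mem_pe h (Sym2.mem_mk_left _ _))
  · rw [mem_insert, not_or]
    constructor
    · intro h
      rw [Sym2.eq_iff] at h
      tauto
    · intro h; exact ha (mem_of_mem_pe h (Sym2.mem_mk_left _ _))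

include hZ in
/-- the only common neighbour of `X1` and `Y1` is `U1` -/
lemma common_X1Y1 {R : Finset (Sym2 V)} (hR : HP R) (h1 : Ad (pe ([b, a] ++ ([c, d] ++ Z))) R)
    (h2 : Ad (pe ([d, c] ++ (Z ++ [a, b]))) R) : R = pe (([c, d] ++ Z) ++ [a, b]) := by
  obtain ⟨hab, hac, had, hbc, hbd, hcd, ha, hb, hc, hd⟩ := facts hf
  have hcK := cardK0 hZ hf
  have z1m := List.head_mem hZ
  have z2m := List.getLast_mem hZ
  have z1a : Z.head hZ ≠ a := fun h => ha (h ▸ z1m)
  have z1b : Z.head hZ ≠ b := fun h => hb (h ▸ z1m)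
  have z1c : Z.head hZ ≠ c := fun h => hc (h ▸ z1m)
  have z1d : Z.head hZ ≠ d := fun h => hd (h ▸ z1m)
  have z2a : Z.getLast hZ ≠ a := fun h => ha (h ▸ z2m)
  have z2b : Z.getLast hZ ≠ b := fun h => hb (h ▸ z2m)
  have z2c : Z.getLast hZ ≠ c := fun h => hc (h ▸ z2m)
  have z2d : Z.getLast hZ ≠ d := fun h => hd (h ▸ z2m)
  rw [eqX1 hZ] at h1
  rw [eqY1 hZ] at h2
  have npe : ∀ {u v : V}, u ∉ Z → s(u, v) ∉ pe Z := fun hu h =>
    hu (mem_of_mem_pe h (Sym2.mem_mk_left _ _))
  have npe' : ∀ {u v : V}, v ∉ Z → s(u, v) ∉ pe Z := fun hu h =>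
    hu (mem_of_mem_pe h (Sym2.mem_mk_right _ _))
  have hc0 := hR.card
  unfold Ad at h1 h2
  have k1 : s(a, c) ∉ K0 a b c d Z := by
    unfold K0
    rw [mem_insert, mem_insert, not_or, not_or]
    refine ⟨?_, ?_, npe ha⟩ <;> rw [Sym2.eq_iff] <;> tauto
  have k2 : s(d, Z.head hZ) ∉ K0 a b c d Z := by
    unfold K0
    rw [mem_insert, mem_insert, not_or, not_or]
    refine ⟨?_, ?_, npe hd⟩ <;> rw [Sym2.eq_iff] <;> tauto
  have k3 : s(c, Z.head hZ) ∉ K0 a b c d Z := by
    unfold K0
    rw [mem_insert, mem_insert, not_or, not_or]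
    refine ⟨?_, ?_, npe hc⟩ <;> rw [Sym2.eq_iff] <;> tauto
  have k4 : s(Z.getLast hZ, a) ∉ K0 a b c d Z := by
    unfold K0
    rw [mem_insert, mem_insert, not_or, not_or]
    refine ⟨?_, ?_, npe' ha⟩ <;> rw [Sym2.eq_iff] <;> tauto
  have mab : s(a, b) ∈ K0 a b c d Z := mem_insert_self _ _
  have mcd : s(c, d) ∈ K0 a b c d Z := mem_insert_of_mem (mem_insert_self _ _)
  have := johnson3 (R := R) k1 k2 k3 k4 (by rw [ne_eq, Sym2.eq_iff]; tauto)
    (by rw [ne_eq, Sym2.eq_iff]; tauto) (by rw [ne_eq, Sym2.eq_iff]; tauto)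
    (by rw [ne_eq, Sym2.eq_iff]; tauto) (by rw [ne_eq, Sym2.eq_iff]; tauto)
    (by rw [ne_eq, Sym2.eq_iff]; tauto) (by omega) (by omega) (by omega)
  rcases this with h | h | h | h
  · exfalso
    refine three_edges hR (v := c) (e1 := s(a, c)) (e2 := s(c, Z.head hZ)) (e3 := s(c, d)) ?_ ?_ ?_
      ?_ ?_ ?_ (by simp) (by simp) (by simp)
    · rw [h]; exact mem_insert_self _ _
    · rw [h]; exact mem_insert_of_mem (mem_insert_self _ _)
    · rw [h]; exact mem_insert_of_mem (mem_insert_of_mem mcd)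
    all_goals rw [ne_eq, Sym2.eq_iff]; tauto
  · exfalso
    refine three_edges hR (v := a) (e1 := s(a, c)) (e2 := s(Z.getLast hZ, a)) (e3 := s(a, b))
      ?_ ?_ ?_ ?_ ?_ ?_ (by simp) (by simp) (by simp)
    · rw [h]; exact mem_insert_self _ _
    · rw [h]; exact mem_insert_of_mem (mem_insert_self _ _)
    · rw [h]; exact mem_insert_of_mem (mem_insert_of_mem mab)
    all_goals rw [ne_eq, Sym2.eq_iff]; tauto
  · exfalso
    have := hR.conn (fun v => v = c ∨ v = d ∨ v ∈ Z) (by
      intro u v huv hu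
      rw [h] at huv
      unfold K0 at huv
      simp only [mem_insert] at huv
      rcases huv with h' | h' | h' | h' | h'
      · rw [Sym2.eq_iff] at h'
        rcases h' with h' | h'
        · right; right; rw [h'.2]; exact z1m
        · right; left; exact h'.2
      · rw [Sym2.eq_iff] at h'
        rcases h' with h' | h'
        · right; right; rw [h'.2]; exact z1m
        · left; exact h'.2
      · exfalso
        rw [Sym2.eq_iff] at h'
        rcases h' with h' | h'
        · rw [h'.1] at hu; tauto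
        · rw [h'.1] at hu; tauto
      · rw [Sym2.eq_iff] at h'
        rcases h' with h' | h'
        · right; left; exact h'.2
        · left; exact h'.2
      · right; right; exact mem_of_mem_pe h' (Sym2.mem_mk_right _ _)) (Or.inl rfl) a
    tauto
  · rw [h, eqU1 hZ]

include hZ in
/-- the only common neighbour of `X1` and `Y2` is `U1` -/
lemma common_X1Y2 {R : Finset (Sym2 V)} (hR : HP R) (h1 : Ad (pe ([b, a] ++ ([c, d] ++ Z))) R)
    (h2 : Ad (pe ((Z ++ [a, b]) ++ [d, c])) R) : R = pe (([c, d] ++ Z) ++ [a, b]) := by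
  obtain ⟨hab, hac, had, hbc, hbd, hcd, ha, hb, hc, hd⟩ := facts hf
  have hcK := cardK0 hZ hf
  have z1m := List.head_mem hZ
  have z2m := List.getLast_mem hZ
  have z1a : Z.head hZ ≠ a := fun h => ha (h ▸ z1m)
  have z1b : Z.head hZ ≠ b := fun h => hb (h ▸ z1m)
  have z1c : Z.head hZ ≠ c := fun h => hc (h ▸ z1m)
  have z1d : Z.head hZ ≠ d := fun h => hd (h ▸ z1m)
  have z2a : Z.getLast hZ ≠ a := fun h => ha (h ▸ z2m)
  have z2b : Z.getLast hZ ≠ b := fun h => hb (h ▸ z2m)
  have z2c : Z.getLast hZ ≠ c := fun h => hc (h ▸ z2m)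
  have z2d : Z.getLast hZ ≠ d := fun h => hd (h ▸ z2m)
  rw [eqX1 hZ] at h1
  rw [eqY2 hZ] at h2
  have npe : ∀ {u v : V}, u ∉ Z → s(u, v) ∉ pe Z := fun hu h =>
    hu (mem_of_mem_pe h (Sym2.mem_mk_left _ _))
  have npe' : ∀ {u v : V}, v ∉ Z → s(u, v) ∉ pe Z := fun hu h =>
    hu (mem_of_mem_pe h (Sym2.mem_mk_right _ _))
  have hc0 := hR.card
  unfold Ad at h1 h2
  have k1 : s(a, c) ∉ K0 a b c d Z := by
    unfold K0
    rw [mem_insert, mem_insert, not_or, not_or]
    refine ⟨?_, ?_, npe ha⟩ <;> rw [Sym2.eq_iff] <;> tauto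
  have k2 : s(d, Z.head hZ) ∉ K0 a b c d Z := by
    unfold K0
    rw [mem_insert, mem_insert, not_or, not_or]
    refine ⟨?_, ?_, npe hd⟩ <;> rw [Sym2.eq_iff] <;> tauto
  have k3 : s(Z.getLast hZ, a) ∉ K0 a b c d Z := by
    unfold K0
    rw [mem_insert, mem_insert, not_or, not_or]
    refine ⟨?_, ?_, npe' ha⟩ <;> rw [Sym2.eq_iff] <;> tauto
  have k4 : s(b, d) ∉ K0 a b c d Z := by
    unfold K0
    rw [mem_insert, mem_insert, not_or, not_or]
    refine ⟨?_, ?_, npe hb⟩ <;> rw [Sym2.eq_iff] <;> tauto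
  have mab : s(a, b) ∈ K0 a b c d Z := mem_insert_self _ _
  have mcd : s(c, d) ∈ K0 a b c d Z := mem_insert_of_mem (mem_insert_self _ _)
  have := johnson3 (R := R) k1 k2 k3 k4 (by rw [ne_eq, Sym2.eq_iff]; tauto)
    (by rw [ne_eq, Sym2.eq_iff]; tauto) (by rw [ne_eq, Sym2.eq_iff]; tauto)
    (by rw [ne_eq, Sym2.eq_iff]; tauto) (by rw [ne_eq, Sym2.eq_iff]; tauto)
    (by rw [ne_eq, Sym2.eq_iff]; tauto) (by omega) (by omega) (by omega)
  rcases this with h | h | h | h
  · exfalso
    refine three_edges hR (v := a) (e1 := s(a, c)) (e2 := s(Z.getLast hZ, a)) (e3 := s(a, b))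
      ?_ ?_ ?_ ?_ ?_ ?_ (by simp) (by simp) (by simp)
    · rw [h]; exact mem_insert_self _ _
    · rw [h]; exact mem_insert_of_mem (mem_insert_self _ _)
    · rw [h]; exact mem_insert_of_mem (mem_insert_of_mem mab)
    all_goals rw [ne_eq, Sym2.eq_iff]; tauto
  · exfalso
    have := hR.conn (fun v => v = a ∨ v = b ∨ v = c ∨ v = d) (by
      intro u v huv hu
      rw [h] at huv
      unfold K0 at huv
      simp only [mem_insert] at huv
      rcases huv with h' | h' | h' | h' | h'
      · rw [Sym2.eq_iff] at h'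
        rcases h' with h' | h'
        · right; right; left; exact h'.2
        · left; exact h'.2
      · rw [Sym2.eq_iff] at h'
        rcases h' with h' | h'
        · right; right; right; exact h'.2
        · right; left; exact h'.2
      · rw [Sym2.eq_iff] at h'
        rcases h' with h' | h'
        · right; left; exact h'.2
        · left; exact h'.2
      · rw [Sym2.eq_iff] at h'
        rcases h' with h' | h'
        · right; right; right; exact h'.2
        · right; right; left; exact h'.2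
      · exfalso
        have := mem_of_mem_pe h' (Sym2.mem_mk_left _ _)
        rcases hu with rfl | rfl | rfl | rfl <;> contradiction) (Or.inl rfl) (Z.head hZ)
    tauto
  · rw [h, eqU1 hZ]
  · exfalso
    refine three_edges hR (v := d) (e1 := s(d, Z.head hZ)) (e2 := s(b, d)) (e3 := s(c, d))
      ?_ ?_ ?_ ?_ ?_ ?_ (by simp) (by simp) (by simp)
    · rw [h]; exact mem_insert_self _ _
    · rw [h]; exact mem_insert_of_mem (mem_insert_self _ _)
    · rw [h]; exact mem_insert_of_mem (mem_insert_of_mem mcd)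
    all_goals rw [ne_eq, Sym2.eq_iff]; tauto

end ctx

end Pool.Agent.H10.PG
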