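import Pool.Agent.H10.PG.Key

set_option autoImplicit false

namespace Pool.Agent.H10.PG

open Finset

variable {V : Type*} [DecidableEq V] [Fintype V] [Nonempty V]

/-- `φ` fixes every path of the Hamiltonian cycle given by `l`. -/
def Fx (φ : spanPathGraph V ≃g spanPathGraph V) (l : List V) : Prop :=
  ∀ (k : ℕ) (P : X V), P.1 = pe (l.rotate k) → φ P = P

variable (φ : spanPathGraph V ≃g spanPathGraph V)

/-- the two outside common neighbours are permuted -/
lemma swap_pair {A B : List V} (hA : A ≠ []) (hB : B ≠ []) (hf : Full (A ++ B))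
    (hA2 : 2 ≤ A.length) (hB2 : 2 ≤ B.length) (h5 : 5 ≤ Fintype.card V)
    (h1 : φ (vt hf) = vt hf) (h2 : φ (vt hf.swap) = vt hf.swap) :
    (φ (vt hf.revL)).1 = pe (A.reverse ++ B) ∨ (φ (vt hf.revL)).1 = pe (A ++ B.reverse) := by
  have h3 : 3 ≤ Fintype.card V := by omega
  have a1 : Ad (φ (vt hf)).1 (φ (vt hf.revL)).1 := (phi_ad φ h3).2 (ad_rev hA hB hf hA2)
  have a2 : Ad (φ (vt hf.swap)).1 (φ (vt hf.revL)).1 := (phi_ad φ h3).2 (ad_rev' hA hB hf hB2)
  have a3 : ¬ SC (φ (vt hf)).1 (φ (vt hf.revL)).1 := by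
    rw [phi_SC_iff φ h5]
    exact not_SC_rev hA hB hf hA2 hB2
  rw [h1] at a1 a3
  rw [h2] at a2
  rcases common_rot hA hB hf h3 (X.hp _) a1 a2 with h | h | h
  · exact absurd h a3
  · left; exact h
  · right; exact h

omit [Nonempty V] in
lemma ad_revR {A B : List V} (hA : A ≠ []) (hB : B ≠ []) (hf : Full (A ++ B))
    (hB2 : 2 ≤ B.length) : Ad (pe (A ++ B)) (pe (A ++ B.reverse)) := by
  have hf' : Full (B.reverse ++ A.reverse) := by
    rw [← List.reverse_append]
    exact hf.perm (List.reverse_perm _).symm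
  have := ad_rev (by simpa using hB) (by simpa using hA) hf' (by simpa using hB2)
  have e1 : pe (A ++ B) = pe (B.reverse ++ A.reverse) := by
    rw [← List.reverse_append, pe_reverse]
  have e2 : pe (A ++ B.reverse) = pe (B.reverse.reverse ++ A.reverse) := by
    rw [← pe_reverse, List.reverse_append]
  rw [e1, e2]
  exact this

lemma key_step {a b c d : V} {Z : List V} (hZ : Z ≠ []) (hf : Full (a :: b :: c :: d :: Z))
    (h : Fx φ (a :: b :: c :: d :: Z)) : Fx φ (b :: a :: c :: d :: Z) := by
  have hlen := hf.length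
  have hZl := List.length_pos_iff.2 hZ
  simp only [List.length_cons] at hlen
  have h5 : 5 ≤ Fintype.card V := by omega
  have h3 : 3 ≤ Fintype.card V := by omega
  -- rewriting the rotations
  have r2 : (a :: b :: c :: d :: Z).rotate 2 = ([c, d] ++ Z) ++ [a, b] := by
    simp [List.rotate_cons_succ]
  have r4 : (a :: b :: c :: d :: Z).rotate 4 = (Z ++ [a, b]) ++ [c, d] := by
    simp [List.rotate_cons_succ]
  have hfX : Full ([a, b] ++ ([c, d] ++ Z)) := hf
  have hfY : Full ([c, d] ++ (Z ++ [a, b])) := by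
    have := hf.rotate 2
    rw [r2, List.append_assoc] at this
    exact this
  -- φ fixes P1, P2, P3
  have fP1 : φ (vt hfX) = vt hfX := h 0 _ (by simp [vt])
  have fP2 : φ (vt hfX.swap) = vt hfX.swap := h 2 _ (by rw [r2]; rfl)
  have fP2' : φ (vt hfY) = vt hfY := h 2 _ (by
    rw [r2]; change pe _ = pe _; rw [List.append_assoc])
  have fP3 : φ (vt hfY.swap) = vt hfY.swap := h 4 _ (by rw [r4]; rfl)
  -- X1
  have fX1 := swap_pair φ (by simp) (by simp) hfX (by simp) (by simp) h5 fP1 fP2
  -- Y1
  have fY1 := swap_pair φ (by simp) (by simp) hfY (by simp) (by simp) h5 fP2' fP3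
  -- X2
  have hfX2 : Full ([b, a] ++ ([c, d] ++ Z).reverse) := by
    have h1 : Full ([b, a] ++ ([c, d] ++ Z)) := hfX.revL
    exact h1.revR
  have eP2 : vt hfX2 = vt hfX.swap := by
    apply Subtype.ext
    change pe ([b, a] ++ ([c, d] ++ Z).reverse) = pe (([c, d] ++ Z) ++ [a, b])
    have : [b, a] ++ ([c, d] ++ Z).reverse = (([c, d] ++ Z) ++ [a, b]).reverse := by simp
    rw [this, pe_reverse]
  have eP1 : vt hfX2.swap = vt hfX := by
    apply Subtype.ext
    change pe (([c, d] ++ Z).reverse ++ [b, a]) = pe ([a, b] ++ ([c, d] ++ Z))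
    have : ([c, d] ++ Z).reverse ++ [b, a] = ([a, b] ++ ([c, d] ++ Z)).reverse := by simp
    rw [this, pe_reverse]
  have fX2 := swap_pair φ (by simp) (by simp) hfX2 (by simp) (by simp) h5
    (by rw [eP2]; exact fP2) (by rw [eP1]; exact fP1)
  -- the vertices
  have hX1 : Full ([b, a] ++ ([c, d] ++ Z)) := hfX.revL
  have hX2 : Full (([c, d] ++ Z) ++ [b, a]) := hX1.swap
  have hY1 : Full ([d, c] ++ (Z ++ [a, b])) := hfY.revL
  have hU1 : Full (([c, d] ++ Z) ++ [a, b]) := hfX.swap
  have hU2 : Full ([d, c] ++ (Z ++ [b, a])) := by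
    have h1 : Full ([c, d] ++ (Z ++ [b, a])) := by
      rw [← List.append_assoc]; exact hX2
    exact h1.revL
  have eX2 : vt hfX2.revL = vt hX2 := by
    apply Subtype.ext
    change pe ([a, b] ++ ([c, d] ++ Z).reverse) = pe (([c, d] ++ Z) ++ [b, a])
    have : [a, b] ++ ([c, d] ++ Z).reverse = (([c, d] ++ Z) ++ [b, a]).reverse := by simp
    rw [this, pe_reverse]
  have hX1X2ne : pe ([b, a] ++ ([c, d] ++ Z)) ≠ pe (([c, d] ++ Z) ++ [b, a]) :=
    (ad_rot (by simp) (by simp) hX1 h3).ne hX1.hp (by omega)
  -- the values of φ on X1, X2, Y1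
  have vX1 : (φ (vt hX1)).1 = pe ([b, a] ++ ([c, d] ++ Z)) ∨
      (φ (vt hX1)).1 = pe (([c, d] ++ Z) ++ [b, a]) := by
    rcases fX1 with h' | h'
    · left; exact h'
    · right
      rw [← pe_reverse (([c, d] ++ Z) ++ [b, a])]
      have : (([c, d] ++ Z) ++ [b, a]).reverse = [a, b] ++ ([c, d] ++ Z).reverse := by simp
      rw [this]
      exact h'
  have vX2 : (φ (vt hX2)).1 = pe (([c, d] ++ Z) ++ [b, a]) ∨
      (φ (vt hX2)).1 = pe ([b, a] ++ ([c, d] ++ Z)) := by
    rw [eX2] at fX2
    rcases fX2 with h' | h'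
    · left
      rw [h', ← pe_reverse (([c, d] ++ Z) ++ [b, a])]
      congr 1
      simp
    · right
      rw [h', List.reverse_reverse]
  have vY1 : (φ (vt hY1)).1 = pe ([d, c] ++ (Z ++ [a, b])) ∨
      (φ (vt hY1)).1 = pe ((Z ++ [a, b]) ++ [d, c]) := by
    rcases fY1 with h' | h'
    · left; exact h'
    · right
      rw [← pe_reverse ((Z ++ [a, b]) ++ [d, c])]
      have : ((Z ++ [a, b]) ++ [d, c]).reverse = [c, d] ++ (Z ++ [a, b]).reverse := by simp
      rw [this]
      exact h'
  -- the adjacencies
  have hX2' : Full ([c, d] ++ (Z ++ [b, a])) := by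
    rw [← List.append_assoc]; exact hX2
  have eX2' : pe (([c, d] ++ Z) ++ [b, a]) = pe ([c, d] ++ (Z ++ [b, a])) := by
    rw [List.append_assoc]
  have adX2U2 : Ad (pe (([c, d] ++ Z) ++ [b, a])) (pe ([d, c] ++ (Z ++ [b, a]))) := by
    rw [eX2']
    exact ad_rev (by simp) (by simp) hX2' (by simp)
  have adY1U2 : Ad (pe ([d, c] ++ (Z ++ [a, b]))) (pe ([d, c] ++ (Z ++ [b, a]))) := by
    rw [← List.append_assoc, ← List.append_assoc]
    exact ad_revR (A := [d, c] ++ Z) (B := [a, b]) (by simp) (by simp)
      (by rw [List.append_assoc]; exact hY1) (by simp)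
  have neU : pe ([d, c] ++ (Z ++ [b, a])) ≠ pe (([c, d] ++ Z) ++ [a, b]) := by
    intro he
    have hm : s(Z.getLast hZ, b) ∈ pe (([c, d] ++ Z) ++ [a, b]) := by
      rw [← he, ← List.append_assoc, pe_append (by simp) (by simp)]
      simp [List.getLast_cons hZ]
    obtain ⟨hab, hac, had, hbc, hbd, hcd, ha, hb, hc, hd⟩ := facts hf
    have z2m := List.getLast_mem hZ
    rw [eqU1 hZ] at hm
    unfold K0 at hm
    simp only [mem_insert] at hm
    have z1m := List.head_mem hZ
    rcases hm with h' | h' | h' | h' | h'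
    · rw [Sym2.eq_iff] at h'
      rcases h' with h' | h'
      · exact hd (h'.1 ▸ z2m)
      · exact hbd h'.2
    · rw [Sym2.eq_iff] at h'
      rcases h' with h' | h'
      · exact hab h'.2.symm
      · exact ha (h'.1 ▸ z2m)
    · rw [Sym2.eq_iff] at h'
      rcases h' with h' | h'
      · exact ha (h'.1 ▸ z2m)
      · exact hab h'.2.symm
    · rw [Sym2.eq_iff] at h'
      rcases h' with h' | h'
      · exact hbd h'.2
      · exact hbc h'.2
    · exact hb (mem_of_mem_pe h' (Sym2.mem_mk_right _ _))
  have hU1fix : φ (vt hU1) = vt hU1 := fP2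
  -- φ X2 ≠ X1
  have hX2fix : (φ (vt hX2)).1 = pe (([c, d] ++ Z) ++ [b, a]) := by
    rcases vX2 with h' | h'
    · exact h'
    · exfalso
      have b1 : Ad (φ (vt hX2)).1 (φ (vt hU2)).1 := (phi_ad φ h3).2 adX2U2
      have b2 : Ad (φ (vt hY1)).1 (φ (vt hU2)).1 := (phi_ad φ h3).2 adY1U2
      have hne : (φ (vt hU2)).1 ≠ (φ (vt hU1)).1 := phi_ne φ neU
      rw [hU1fix] at hne
      rw [h'] at b1
      rcases vY1 with h'' | h''
      · rw [h''] at b2
        exact hne (common_X1Y1 hZ hf (X.hp _) b1 b2)
      · rw [h''] at b2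
        exact hne (common_X1Y2 hZ hf (X.hp _) b1 b2)
  have hX1fix : (φ (vt hX1)).1 = pe ([b, a] ++ ([c, d] ++ Z)) := by
    rcases vX1 with h' | h'
    · exact h'
    · exfalso
      have : φ (vt hX1) = φ (vt hX2) := Subtype.ext (by rw [h', hX2fix])
      exact hX1X2ne (congrArg Subtype.val (φ.injective this))
  -- conclude with the dihedral lemma
  have hf' : Full (b :: a :: c :: d :: Z) := hX1
  obtain ⟨m, hm, hmk⟩ := dihedral φ h5 hf'
  have hm0 : pe (b :: a :: c :: d :: Z) = pe m := by
    have h0 := hmk 0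
    have e0 : vt (hf'.rotate 0) = vt hX1 := Subtype.ext (by change pe _ = pe _; simp)
    rw [e0, hX1fix, List.rotate_zero] at h0
    exact h0
  have hm2 : pe ((b :: a :: c :: d :: Z).rotate 2) = pe (m.rotate 2) := by
    have h0 := hmk 2
    have r2' : (b :: a :: c :: d :: Z).rotate 2 = ([c, d] ++ Z) ++ [b, a] := by
      simp [List.rotate_cons_succ]
    have e0 : vt (hf'.rotate 2) = vt hX2 := Subtype.ext (by change pe _ = pe _; rw [r2'])
    rw [e0, hX2fix, ← r2'] at h0
    exact h0
  have hmm : m = b :: a :: c :: d :: Z := by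
    rcases pe_inj hf'.nodup hm.nodup (by simp) hm0 with h' | h'
    · exact h'
    · exfalso
      rw [h', List.rotate_reverse, pe_reverse] at hm2
      have := rotate_inj' hf' h3 hm2
      rw [hf'.length, Nat.mod_eq_of_lt (show 2 < Fintype.card V by omega),
        Nat.mod_eq_of_lt (show Fintype.card V - 2 < Fintype.card V by omega)] at this
      omega
  subst hmm
  intro k P hP
  have : P = vt (hf'.rotate k) := Subtype.ext hP
  rw [this]
  exact Subtype.ext (hmk k)

lemma Fx.rotate {l : List V} (h : Fx φ l) (i : ℕ) : Fx φ (l.rotate i) := by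
  intro k P hP
  rw [List.rotate_rotate] at hP
  exact h _ P hP

lemma swap_step (h5 : 5 ≤ Fintype.card V) {A B : List V} {x y : V}
    (hf : Full (A ++ x :: y :: B)) (h : Fx φ (A ++ x :: y :: B)) :
    Fx φ (A ++ y :: x :: B) := by
  have hlen := hf.length
  have h1 : (A ++ x :: y :: B).rotate A.length = x :: y :: (B ++ A) := by
    rw [List.rotate_append_length_eq]; rfl
  have hf1 := hf.rotate A.length
  have h2 := Fx.rotate φ h A.length
  rw [h1] at hf1 h2
  simp only [List.length_append, List.length_cons] at hlen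
  have hlen2 : 3 ≤ (B ++ A).length := by
    simp only [List.length_append]; omega
  have e1 : (y :: x :: (B ++ A)).rotate (B.length + 2) = A ++ y :: x :: B := by
    have : y :: x :: (B ++ A) = (y :: x :: B) ++ A := rfl
    rw [this]
    have h3 : B.length + 2 = (y :: x :: B).length := by simp
    rw [h3, List.rotate_append_length_eq]
  match hBA : B ++ A, hlen2 with
  | [], hl => simp at hl
  | [c], hl => simp at hl
  | [c, d], hl => simp at hl
  | c :: d :: z :: Z, _ =>
    rw [hBA] at hf1 h2 e1
    have h4 := key_step φ (by simp) hf1 h2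
    rw [← e1]
    exact Fx.rotate φ h4 _

lemma Fx.perm (h5 : 5 ≤ Fintype.card V) {l l' : List V} (hp : l.Perm l') :
    ∀ A : List V, Full (A ++ l) → Fx φ (A ++ l) → Fx φ (A ++ l') := by
  induction hp with
  | nil => intro A _ h; exact h
  | cons x hp ih =>
    intro A hf h
    have := ih (A ++ [x]) (by simpa using hf) (by simpa using h)
    simpa using this
  | swap x y l =>
    intro A hf h
    exact swap_step φ h5 hf h
  | trans h1 h2 ih1 ih2 =>
    intro A hf h
    exact ih2 A (hf.perm (List.Perm.append_left _ h1)) (ih1 A hf h)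

/-- An automorphism fixing all the paths of one Hamiltonian cycle is trivial. -/
lemma eq_of_Fx (h5 : 5 ≤ Fintype.card V) {l : List V} (hf : Full l) (h : Fx φ l) (P : X V) :
    φ P = P := by
  obtain ⟨m, hm, hPm⟩ := X.hp P
  have hp : l.Perm m := (List.perm_ext_iff_of_nodup hf.nodup hm.nodup).2
    (fun v => ⟨fun _ => hm.all v, fun _ => hf.all v⟩)
  have := Fx.perm φ h5 hp [] (by simpa using hf) (by simpa using h)
  exact this 0 P (by simpa using hPm)

omit [Nonempty V] [Fintype V] in
lemma pe_map (σ : Equiv.Perm V) (l : List V) :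
    pe (l.map σ) = (pe l).image (Sym2.map σ) := by
  induction l with
  | nil => simp
  | cons a t ih =>
    cases t with
    | nil => simp
    | cons b t =>
      rw [List.map_cons, List.map_cons, pe_cons_cons, pe_cons_cons, image_insert,
        ← List.map_cons, ih]
      rfl

omit [Nonempty V] [DecidableEq V] [Fintype V] in
lemma exists_perm {l m : List V} (hl : Full l) (hm : Full m) (hlen : l.length = m.length) :
    ∃ σ : Equiv.Perm V, l.map σ = m := by
  classical
  let e1 := List.Nodup.getEquivOfForallMemList l hl.nodup hl.all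
  let e2 := List.Nodup.getEquivOfForallMemList m hm.nodup hm.all
  refine ⟨(e1.symm.trans (finCongr hlen)).trans e2, ?_⟩
  apply List.ext_get
  · simp [hlen]
  · intro i h1 h2
    simp only [List.get_eq_getElem, List.getElem_map, Equiv.trans_apply]
    have h3 : i < l.length := by simpa using h1
    have : e1.symm l[i] = ⟨i, h3⟩ := by
      rw [Equiv.symm_apply_eq]
      rfl
    rw [this]
    rfl

theorem permHom_surjective (h5 : 5 ≤ Fintype.card V) : Function.Surjective (permHom V) := by
  intro φ
  have hf0 : Full (Finset.univ : Finset V).toList :=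
    ⟨Finset.nodup_toList _, fun v => by simp⟩
  obtain ⟨m, hm, hmk⟩ := dihedral φ h5 hf0
  obtain ⟨σ, hσ⟩ := exists_perm hf0 hm (by rw [hf0.length, hm.length])
  refine ⟨σ, ?_⟩
  have hFx : Fx (φ.trans (permIso σ).symm) (Finset.univ : Finset V).toList := by
    intro k P hP
    have e1 : P = vt (hf0.rotate k) := Subtype.ext hP
    have e2 : φ P = permIso σ P := by
      apply Subtype.ext
      rw [e1, hmk k]
      change pe (m.rotate k) = (pe _).image (Sym2.map σ)
      rw [← pe_map, List.map_rotate, hσ]
    rw [RelIso.trans_apply, e2]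
    simp
  have hall := eq_of_Fx _ h5 hf0 hFx
  apply RelIso.ext
  intro P
  have := hall P
  rw [RelIso.trans_apply] at this
  change permIso σ P = φ P
  have h2 := congrArg (permIso σ) this
  rw [RelIso.apply_symm_apply] at h2
  exact h2.symm

theorem permHom_injective (h3 : 3 ≤ Fintype.card V) : Function.Injective (permHom V) := by
  rw [injective_iff_map_eq_one]
  intro σ hσ
  have hpe : ∀ l : List V, Full l → l.map σ = l ∨ l.map σ = l.reverse := by
    intro l hl
    have h1 : permIso σ (vt hl) = vt hl := by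
      have := DFunLike.congr_fun hσ (vt hl)
      exact this
    have h2 := congrArg Subtype.val h1
    change (pe l).image (Sym2.map σ) = pe l at h2
    rw [← pe_map] at h2
    have hnd : (l.map σ).Nodup := hl.nodup.map σ.injective
    exact pe_inj hl.nodup hnd (by rw [hl.length]; omega) h2.symm
  by_contra hne
  have hrev : ∀ l : List V, Full l → l.map σ = l.reverse := by
    intro l hl
    rcases hpe l hl with h | h
    · exfalso
      apply hne
      ext v
      have : ∀ v ∈ l, σ v = v := by
        have : l.map σ = l.map id := by simpa using h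
        intro v hv
        simpa using List.map_inj_left.1 this v hv
      simpa using this v (hl.all v)
    · exact h
  have hf0 : Full (Finset.univ : Finset V).toList :=
    ⟨Finset.nodup_toList _, fun v => by simp⟩
  have hlen := hf0.length
  match hl : (Finset.univ : Finset V).toList, hf0, hlen with
  | [], _, hlen => simp at hlen; omega
  | [a], _, hlen => simp at hlen; omega
  | [a, b], _, hlen => simp at hlen; omega
  | a :: b :: c :: t, hf0, _ =>
    have hf1 : Full (b :: a :: c :: t) := hf0.perm (List.Perm.swap _ _ _)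
    have h1 := hrev _ hf0
    have h2 := hrev _ hf1
    have g1 := congrArg List.head? h1
    have g2 := congrArg List.head? h2
    simp only [List.map_cons, List.head?_cons, List.reverse_cons, List.head?_append,
      List.head?_reverse] at g1 g2
    have hab : a ≠ b := by
      have := hf0.nodup
      simp only [List.nodup_cons, List.mem_cons, not_or] at this
      exact this.1.1
    have : some (σ a) = some (σ b) := by
      rw [g1, g2]
      simp
    apply hab
    exact σ.injective (Option.some_injective _ this)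

end Pool.Agent.H10.PG
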